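import Pool.Agent.Lib.MP_29e7a7_co.PP.Stm

/-!
# Asymptotic path partition theorem: piece abd (paths in the first parts)
-/

set_option autoImplicit false

namespace Pool.Agent.Lib.MP_29e7a7_co.PP

open Finset

private theorem abd_cancel (a b π l al : ℕ) (hab : 1 ≤ a + b) (h1 : π ≤ al)
    (h2 : al = a * l / (a + b)) (h3 : al ≤ l) : b * π ≤ a * (l - al) := by
  have h4 : al * (a + b) ≤ a * l := by rw [h2]; exact Nat.div_mul_le_self _ _
  obtain ⟨be, hbe⟩ : ∃ be, l = al + be := ⟨l - al, by omega⟩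
  have h5 : l - al = be := by omega
  rw [h5]
  have h6 : b * π * (a + b) ≤ a * be * (a + b) := by
    calc b * π * (a + b) ≤ b * al * (a + b) := by
          apply Nat.mul_le_mul_right
          exact Nat.mul_le_mul_left _ h1
      _ = b * (al * (a + b)) := by ring
      _ ≤ b * (a * l) := Nat.mul_le_mul_left _ h4
      _ ≤ a * be * (a + b) := by
          have h7 : b * l ≤ be * (a + b) := by
            have h8 : al * (a + b) ≤ a * (al + be) := by rw [← hbe]; exact h4
            rw [hbe]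
            nlinarith [h8]
          calc b * (a * l) = a * (b * l) := by ring
            _ ≤ a * (be * (a + b)) := Nat.mul_le_mul_left _ h7
            _ = a * be * (a + b) := by ring
  exact Nat.le_of_mul_le_mul_right h6 (by omega)

theorem p_abd : S_abd := by
  intro hseq V _ _ G N s L K e hN hs hK1 hK2 a b r F Q X U p hr hF hdis hXU hdet hab hp hpm
  obtain ⟨D, hD⟩ : ∃ D, D = 3 * e + (L + 2) * s := ⟨_, rfl⟩
  rw [← hD]
  obtain ⟨al, hal⟩ : ∃ al : Finset V → ℕ, ∀ C, al C = a * (Q C).length / (a + b) :=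
    ⟨_, fun _ => rfl⟩
  obtain ⟨pi, hpi⟩ : ∃ pi : Finset V → ℕ, ∀ C, pi C = (p.toFinset ∩ C).card :=
    ⟨_, fun _ => rfl⟩
  obtain ⟨be, hbe⟩ : ∃ be : Finset V → ℕ, ∀ C, be C = ((Q C).drop (al C)).length :=
    ⟨_, fun _ => rfl⟩
  have hpm' : ∀ v ∈ p, v ∈ X ∨ ∃ C ∈ F, v ∈ (Q C).take (al C) := by
    intro v hv
    rcases hpm v hv with h | ⟨C, hC, h⟩
    · exact Or.inl h
    · exact Or.inr ⟨C, hC, by rw [hal]; exact h⟩
  -- an element of `p` in `C` is in the first part
  have htake : ∀ C ∈ F, ∀ v ∈ p, v ∈ C → v ∈ (Q C).take (al C) := by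
    intro C hC v hv hvC
    rcases hpm' v hv with h | ⟨C', hC', h⟩
    · exact absurd hvC (Finset.disjoint_left.1 (hF C hC).2.2.2.2 h)
    · by_cases hCC : C = C'
      · rw [hCC]
        exact h
      · have h1 : v ∈ C' := (hF C' hC').2.2.2.1 v (List.mem_of_mem_take h)
        exact absurd h1 (Finset.disjoint_left.1 (hdis C hC C' hC' hCC) hvC)
  have hdrop : ∀ C ∈ F, ∀ v ∈ (Q C).drop (al C), v ∈ C ∧ v ∉ p := by
    intro C hC v hv
    have h1 : v ∈ C := (hF C hC).2.2.2.1 v (List.mem_of_mem_drop hv)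
    refine ⟨h1, fun h2 => ?_⟩
    have h3 := htake C hC v h2 h1
    have h4 : (Q C).Nodup := (hF C hC).2.2.1.1
    rw [← List.take_append_drop (al C) (Q C), List.nodup_append] at h4
    exact h4.2.2 v h3 v hv rfl
  have hpial : ∀ C ∈ F, pi C ≤ al C := by
    intro C hC
    rw [hpi]
    calc (p.toFinset ∩ C).card ≤ ((Q C).take (al C)).toFinset.card := by
          apply Finset.card_le_card
          intro v hv
          rw [Finset.mem_inter, List.mem_toFinset] at hv
          rw [List.mem_toFinset]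
          exact htake C hC v hv.1 hv.2
      _ ≤ ((Q C).take (al C)).length := List.toFinset_card_le _
      _ ≤ al C := List.length_take_le _ _
  have halle : ∀ C, al C ≤ (Q C).length := by
    intro C
    rw [hal]
    apply Nat.div_le_of_le_mul
    exact Nat.mul_le_mul_right _ (by omega)
  have hiv : ∀ C ∈ F, b * pi C ≤ a * be C := by
    intro C hC
    rw [hbe, List.length_drop]
    exact abd_cancel a b (pi C) (Q C).length (al C) hab (hpial C hC) (hal C) (halle C)
  -- (i)
  have hi : p.length ≤ X.card + ∑ C ∈ F, pi C := by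
    rw [← List.toFinset_card_of_nodup hp.1]
    calc p.toFinset.card ≤ (X ∪ F.biUnion (fun C => p.toFinset ∩ C)).card := by
          apply Finset.card_le_card
          intro v hv
          rw [Finset.mem_union]
          rcases hpm' v (List.mem_toFinset.1 hv) with h | ⟨C, hC, h⟩
          · exact Or.inl h
          · refine Or.inr (Finset.mem_biUnion.2 ⟨C, hC, Finset.mem_inter.2 ⟨hv, ?_⟩⟩)
            exact (hF C hC).2.2.2.1 v (List.mem_of_mem_take h)
      _ ≤ X.card + (F.biUnion (fun C => p.toFinset ∩ C)).card := Finset.card_union_le _ _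
      _ ≤ X.card + ∑ C ∈ F, pi C := by
          apply Nat.add_le_add_left
          refine le_trans Finset.card_biUnion_le (le_of_eq ?_)
          exact Finset.sum_congr rfl fun C _ => (hpi C).symm
  -- (ii)
  obtain ⟨w, hw⟩ : ∃ w, w = e + r * D := ⟨_, rfl⟩
  obtain ⟨F₁, hF₁⟩ : ∃ F₁ : Finset (Finset V), F₁ = F.filter (fun C => w ≤ pi C) := ⟨_, rfl⟩
  have hF₁F : F₁ ⊆ F := by rw [hF₁]; exact Finset.filter_subset _ _
  have hii : ∑ C ∈ F, pi C ≤ ∑ C ∈ F₁, pi C + r * w := by
    rw [← Finset.sum_filter_add_sum_filter_not F (fun C => w ≤ pi C), ← hF₁]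
    apply Nat.add_le_add_left
    calc ∑ C ∈ F.filter (fun C => ¬ w ≤ pi C), pi C
        ≤ ∑ _C ∈ F.filter (fun C => ¬ w ≤ pi C), w := by
          apply Finset.sum_le_sum
          intro C hC
          rw [Finset.mem_filter] at hC
          omega
      _ = (F.filter (fun C => ¬ w ≤ pi C)).card * w := by rw [Finset.sum_const, smul_eq_mul]
      _ ≤ r * w := by
          apply Nat.mul_le_mul_right
          exact le_trans (Finset.card_le_card (Finset.filter_subset _ _)) hr
  -- (iii)
  obtain ⟨J, hJ⟩ : ∃ J : Finset (Finset V), J = F₁.filter (fun C => D ≤ be C) := ⟨_, rfl⟩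
  have hJF₁ : J ⊆ F₁ := by rw [hJ]; exact Finset.filter_subset _ _
  have hJr : J.card ≤ r := le_trans (Finset.card_le_card (hJF₁.trans hF₁F)) hr
  obtain ⟨q, hq1, hq2, hq3⟩ := hseq V G N s L K e hN hs hK1 hK2 J
    (fun C => (Q C).drop (al C)) p hp (by
      intro C hC
      have hCF₁ : C ∈ F₁ := hJF₁ hC
      have hCF : C ∈ F := hF₁F hCF₁
      refine ⟨(hF C hCF).2.1, ?_, hdrop C hCF, ?_, ?_⟩
      · have h1 := (hF C hCF).2.2.1
        rw [← List.take_append_drop (al C) (Q C)] at h1
        exact h1.right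
      · rw [← hD]
        rw [hJ, Finset.mem_filter, hbe] at hC
        exact hC.2
      · rw [← hD, ← hpi]
        rw [hF₁, Finset.mem_filter] at hCF₁
        have h2 : J.card * D ≤ r * D := Nat.mul_le_mul_right _ hJr
        omega)
    (fun C hC C' hC' hne => hdis C (hF₁F (hJF₁ hC)) C' (hF₁F (hJF₁ hC')) hne)
  have hqU : ∀ v ∈ q, v ∈ U := by
    intro v hv
    rcases hq2 v hv with h | ⟨C, hC, h⟩
    · rcases hpm' v h with h' | ⟨C, hC, h'⟩
      · exact hXU h'
      · exact (hF C hC).1 ((hF C hC).2.2.2.1 v (List.mem_of_mem_take h'))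
    · exact (hF C (hF₁F (hJF₁ hC))).1 h
  have hqlen : q.length ≤ a + b := hdet q hq1 hqU
  rw [← hD] at hq3
  have hsumJ : ∑ C ∈ J, ((Q C).drop (al C)).length = ∑ C ∈ J, be C :=
    Finset.sum_congr rfl fun C _ => (hbe C).symm
  have hq4 : p.length + ∑ C ∈ J, be C ≤ q.length + J.card * D := by
    rw [← hsumJ]
    exact hq3
  have hJD : J.card * D ≤ r * D := Nat.mul_le_mul_right _ hJr
  have hbeF₁ : ∑ C ∈ F₁, be C ≤ ∑ C ∈ J, be C + r * D := by
    rw [← Finset.sum_filter_add_sum_filter_not F₁ (fun C => D ≤ be C), ← hJ]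
    apply Nat.add_le_add_left
    calc ∑ C ∈ F₁.filter (fun C => ¬ D ≤ be C), be C
        ≤ ∑ _C ∈ F₁.filter (fun C => ¬ D ≤ be C), D := by
          apply Finset.sum_le_sum
          intro C hC
          rw [Finset.mem_filter] at hC
          omega
      _ = (F₁.filter (fun C => ¬ D ≤ be C)).card * D := by rw [Finset.sum_const, smul_eq_mul]
      _ ≤ r * D := by
          apply Nat.mul_le_mul_right
          exact le_trans (Finset.card_le_card ((Finset.filter_subset _ _).trans hF₁F)) hr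
  have hpiF₁ : ∑ C ∈ F₁, pi C ≤ p.length := by
    have h1 : ∑ C ∈ F₁, pi C = (F₁.biUnion (fun C => p.toFinset ∩ C)).card := by
      rw [Finset.card_biUnion]
      · exact Finset.sum_congr rfl fun C _ => hpi C
      · intro C hC C' hC' hne
        exact Finset.disjoint_of_subset_left Finset.inter_subset_right
          (Finset.disjoint_of_subset_right Finset.inter_subset_right
            (hdis C (hF₁F hC) C' (hF₁F hC') hne))
    rw [h1]
    refine le_trans (Finset.card_le_card ?_) (List.toFinset_card_le p)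
    intro v hv
    rw [Finset.mem_biUnion] at hv
    obtain ⟨C, _, hvC⟩ := hv
    exact (Finset.mem_inter.1 hvC).1
  have hiii : ∑ C ∈ F₁, pi C + ∑ C ∈ F₁, be C ≤ a + b + 2 * (r * D) := by omega
  -- (v)
  have hv1 : b * ∑ C ∈ F₁, pi C ≤ a * ∑ C ∈ F₁, be C := by
    rw [Finset.mul_sum, Finset.mul_sum]
    exact Finset.sum_le_sum fun C hC => hiv C (hF₁F hC)
  obtain ⟨A, hA⟩ : ∃ A, A = ∑ C ∈ F₁, pi C := ⟨_, rfl⟩
  obtain ⟨B, hB⟩ : ∃ B, B = ∑ C ∈ F₁, be C := ⟨_, rfl⟩
  rw [← hA, ← hB] at hiii hv1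
  rw [← hA] at hii
  have hv2 : A ≤ a + 2 * (r * D) := by
    have h1 : (a + b) * A ≤ (a + b) * (a + 2 * (r * D)) := by
      calc (a + b) * A = a * A + b * A := by ring
        _ ≤ a * A + a * B := Nat.add_le_add_left hv1 _
        _ = a * (A + B) := by ring
        _ ≤ a * (a + b + 2 * (r * D)) := Nat.mul_le_mul_left _ hiii
        _ ≤ (a + b) * (a + 2 * (r * D)) := by nlinarith [Nat.zero_le (b * (r * D))]
    exact Nat.le_of_mul_le_mul_left h1 (by omega)
  have hfin : 2 * r * D = 2 * (r * D) := by ring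
  rw [hfin, ← hw]
  omega

end Pool.Agent.Lib.MP_29e7a7_co.PP
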