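import Pool.Agent.Lib.MP_29e7a7_co.PP.Stm

/-!
# The piece bbd: paths outside the first part of a longest path
-/

set_option autoImplicit false

namespace Pool.Agent.Lib.MP_29e7a7_co.PP

theorem p_bbd : S_bbd := by
  intro hins V _ _ G N s L K e C hN hs hK hK2 hlink Q p α hQ hQC hdet hα hp hpC
  have hpQ : p.length ≤ Q.length := hdet p hp fun v hv => (hpC v hv).1
  by_cases h1 : α < 3 * e + (L + 2) * s
  · omega
  by_cases h2 : p.length < e
  · have h3 : p.length ≤ 3 * e + (L + 2) * s := by
      have : 0 ≤ (L + 2) * s := Nat.zero_le _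
      omega
    omega
  have hT : IsP G (Q.take α) := by
    have h3 : IsP G (Q.take α ++ Q.drop α) := by
      rw [List.take_append_drop]
      exact hQ
    exact h3.left
  have hTlen : (Q.take α).length = α := by
    rw [List.length_take]
    omega
  have hTC : ∀ v ∈ Q.take α, v ∈ C ∧ v ∉ p := by
    intro v hv
    exact ⟨hQC v (List.mem_of_mem_take hv), fun h => (hpC v h).2 hv⟩
  have hcard : (p.toFinset ∩ C).card = p.length := by
    rw [Finset.inter_eq_left.mpr, List.toFinset_card_of_nodup hp.1]
    intro v hv
    exact (hpC v (List.mem_toFinset.mp hv)).1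
  obtain ⟨q, hq, hq1, hq2⟩ := hins V G N s L K e C hN hs hK hK2 hlink p (Q.take α) hp hT hTC
    (by rw [hTlen]; omega) (by rw [hcard]; omega)
  have hqQ : q.length ≤ Q.length := by
    apply hdet q hq
    intro v hv
    rcases hq1 v hv with h | h
    · exact (hpC v h).1
    · exact h
  have hnd : (p ++ Q.take α).Nodup := by
    rw [List.nodup_append]
    refine ⟨hp.1, hT.1, ?_⟩
    intro a ha b hb hab
    subst hab
    exact (hTC a hb).2 ha
  have h4 := length_le_of_miss (q := q) hnd
  rw [List.length_append, hTlen] at h4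
  omega

end Pool.Agent.Lib.MP_29e7a7_co.PP
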