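import Pool.Agent.Lib.MP_29e7a7_co.PP.Stm

/-!
# Piece cell: pigeonhole on the position in two lists
-/

set_option autoImplicit false

namespace Pool.Agent.Lib.MP_29e7a7_co.PP

open Finset

private theorem cell_mem {V : Type} [DecidableEq V] (l : List V) (x : V) (s c : ℕ) (hs : 1 ≤ s)
    (hx : x ∈ l) (hc : l.idxOf x / s = c) : x ∈ (l.drop (c * s)).take s := by
  have hlt : l.idxOf x < l.length := List.idxOf_lt_length_of_mem hx
  have h1 : c * s ≤ l.idxOf x := by
    rw [← hc]; exact Nat.div_mul_le_self _ _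
  have h2 : l.idxOf x < c * s + s := by
    rw [← hc]
    have := Nat.lt_div_mul_add (a := l.idxOf x) (show 0 < s by omega)
    exact this
  rw [List.mem_iff_getElem?]
  refine ⟨l.idxOf x - c * s, ?_⟩
  rw [List.getElem?_take, if_pos (by omega), List.getElem?_drop]
  have h3 : c * s + (l.idxOf x - c * s) = l.idxOf x := by omega
  rw [h3, List.getElem?_eq_getElem hlt]
  simp

private theorem cell_one {V : Type} [DecidableEq V] (l : List V) (s c : ℕ) (hs : 1 ≤ s)
    (I : Finset ℕ) (b : ℕ → V) (h : ∀ k ∈ I, b k ∈ l ∧ l.idxOf (b k) / s = c) :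
    ∃ x z y : List V, l = x ++ (z ++ y) ∧ z.length ≤ s ∧ ∀ k ∈ I, b k ∈ z := by
  refine ⟨l.take (c * s), (l.drop (c * s)).take s, (l.drop (c * s)).drop s, ?_, ?_, ?_⟩
  · rw [List.take_append_drop, List.take_append_drop]
  · rw [List.length_take]
    exact min_le_left _ _
  · intro k hk
    exact cell_mem l (b k) s c hs (h k hk).1 (h k hk).2

theorem p_cell : S_cell := by
  intro V N s M I b l₁ l₂ _ _ hl₁ hl₂ hs hb hM
  classical
  let f : ℕ → Bool × ℕ := fun k =>
    if b k ∈ l₁ then (true, l₁.idxOf (b k) / s) else (false, l₂.idxOf (b k) / s)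
  have hf1 : ∀ k, b k ∈ l₁ → f k = (true, l₁.idxOf (b k) / s) := fun k h => if_pos h
  have hf2 : ∀ k, b k ∉ l₁ → f k = (false, l₂.idxOf (b k) / s) := fun k h => if_neg h
  have hmaps : ∀ k ∈ I, f k ∈ (Finset.univ : Finset Bool) ×ˢ Finset.range (N / s + 1) := by
    intro k hk
    rw [Finset.mem_product]
    refine ⟨Finset.mem_univ _, ?_⟩
    rw [Finset.mem_range, Nat.lt_succ_iff]
    by_cases h : b k ∈ l₁
    · rw [hf1 k h]
      exact Nat.div_le_div_right ((List.idxOf_lt_length_of_mem h).le.trans hl₁)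
    · rw [hf2 k h]
      have h2 := (hb k hk).resolve_left h
      exact Nat.div_le_div_right ((List.idxOf_lt_length_of_mem h2).le.trans hl₂)
  have hcard : ((Finset.univ : Finset Bool) ×ˢ Finset.range (N / s + 1)).card * M < I.card := by
    rw [Finset.card_product, Finset.card_range, Finset.card_univ, Fintype.card_bool, mul_comm]
    exact hM
  obtain ⟨⟨t, c⟩, _, hy⟩ := Finset.exists_lt_card_fiber_of_mul_lt_card_of_maps_to hmaps hcard
  refine ⟨I.filter (fun k => f k = (t, c)), Finset.filter_subset _ _, hy, ?_⟩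
  cases t with
  | true =>
    left
    apply cell_one l₁ s c hs
    intro k hk
    rw [Finset.mem_filter] at hk
    by_cases h : b k ∈ l₁
    · have h2 := hk.2
      rw [hf1 k h, Prod.mk.injEq] at h2
      exact ⟨h, h2.2⟩
    · have h2 := hk.2
      rw [hf2 k h, Prod.mk.injEq] at h2
      exact absurd h2.1 (by decide)
  | false =>
    right
    apply cell_one l₂ s c hs
    intro k hk
    rw [Finset.mem_filter] at hk
    by_cases h : b k ∈ l₁
    · have h2 := hk.2
      rw [hf1 k h, Prod.mk.injEq] at h2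
      exact absurd h2.1 (by decide)
    · have h2 := hk.2
      rw [hf2 k h, Prod.mk.injEq] at h2
      exact ⟨(hb k hk.1).resolve_left h, h2.2⟩

end Pool.Agent.Lib.MP_29e7a7_co.PP
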