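import Pool.Agent.Lib.MP_29e7a7_co.PP.Stm

/-!
# [PP cls] Closing a path in the presence of a second path
-/

set_option autoImplicit false

namespace Pool.Agent.Lib.MP_29e7a7_co.PP

/-- closing a path to a cycle by a connection from its end part to its start part -/
private theorem cls_cyc {V : Type} {G : SimpleGraph V} {C : Finset V} {T : Set V} {a b : V}
    {x W w μ : List V} (hQ : IsP G (x ++ b :: (W ++ a :: w))) (hc : Con G C T a μ b)
    (hT : ∀ v ∈ b :: (W ++ [a]), v ∈ T) : IsCyc G (b :: (W ++ a :: μ)) := by
  have h1 : IsP G ((b :: W) ++ a :: w) := hQ.right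
  have h2 : IsP G ((b :: W) ++ [a]) := (isP_split.mp h1).1
  have h3 : IsP G (a :: μ) := by
    have h4 : IsP G ((a :: μ) ++ [b]) := by simpa using hc.1
    exact h4.left
  refine ⟨?_, b, W ++ a :: μ, rfl, ?_⟩
  · have h5 : b :: (W ++ a :: μ) = ((b :: W) ++ [a]) ++ μ := by simp
    rw [h5, List.nodup_append]
    refine ⟨h2.1, (List.nodup_cons.mp h3.1).2, ?_⟩
    intro v hv v' hv' hvv
    subst hvv
    exact (hc.2 v hv').2 (hT v (by simpa using hv))
  · have h5 : b :: (W ++ a :: μ ++ [b]) = (b :: W) ++ a :: (μ ++ [b]) := by simp
    rw [h5, List.isChain_split]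
    exact ⟨h2.2, hc.1.2⟩

private theorem cls_num (q j c : ℕ) (h : (2 * q + 1) ^ (j + 1) ≤ c) :
    (2 * q + 1) ^ j * (2 * q) < c := by
  have h1 : 1 ≤ (2 * q + 1) ^ j := Nat.one_le_pow _ _ (by omega)
  have h2 : (2 * q + 1) ^ (j + 1) = (2 * q + 1) ^ j * (2 * q) + (2 * q + 1) ^ j := by ring
  omega

theorem p_cls : S_cls := by
  intro h1 h2 h3 h4 V _ _ G N s C hN hs j
  induction j with
  | zero =>
    intro p f' m f I R hp hQ hpQ hL hI
    exfalso
    have hI0 : I.Nonempty := by
      rw [← Finset.card_pos]
      simpa using hI
    have hAB : Disjoint {v | v ∈ f} {v | v ∈ f'} := by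
      rw [Set.disjoint_left]
      intro v hv hv'
      have h5 := (List.nodup_append.mp hQ.1).2.2
      exact h5 v (List.mem_append_left _ hv') v hv rfl
    obtain ⟨a, b, μ, ρ, hk, -, -⟩ := h1 V G C {v | v ∈ f' ++ m ++ f} {v | v ∈ f} {v | v ∈ f'} 0 I R
      (fun v hv => List.mem_append_right _ hv)
      (fun v hv => List.mem_append_left _ (List.mem_append_left _ hv)) hAB hI0 hL
    obtain ⟨k, hkI⟩ := hI0
    have h5 := (hk k hkI).2.2.2.2.2.2
    simp at h5
  | succ j ih =>
    intro p f' m f I R hp hQ hpQ hL hI
    have hI0 : I.Nonempty := by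
      rw [← Finset.card_pos]
      have h5 : 1 ≤ (2 * (N / s + 1) + 1) ^ (j + 1) := Nat.one_le_pow _ _ (by omega)
      omega
    have hAB : Disjoint {v | v ∈ f} {v | v ∈ f'} := by
      rw [Set.disjoint_left]
      intro v hv hv'
      have h5 := (List.nodup_append.mp hQ.1).2.2
      exact h5 v (List.mem_append_left _ hv') v hv rfl
    obtain ⟨T, hT⟩ : ∃ T : Set V, T = {v | v ∈ p ∨ v ∈ f' ++ m ++ f} := ⟨_, rfl⟩
    have hTp : ∀ v ∈ p, v ∈ T := fun v hv => by rw [hT]; exact Or.inl hv
    have hTQ : ∀ v ∈ f' ++ m ++ f, v ∈ T := fun v hv => by rw [hT]; exact Or.inr hv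
    obtain ⟨a, b, μ, ρ, hk, hdis, hlnk⟩ := h1 V G C T {v | v ∈ f} {v | v ∈ f'} (j + 1) I R
      (fun v hv => hTQ v (List.mem_append_right _ hv))
      (fun v hv => hTQ v (List.mem_append_left _ (List.mem_append_left _ hv))) hAB hI0 hL
    by_cases hcase : ∃ k ∈ I, b k ∈ f'
    · obtain ⟨k, hkI, hbk⟩ := hcase
      right
      obtain ⟨hak, -, -, haC, hbC, hcon, -⟩ := hk k hkI
      obtain ⟨x, y, hxy⟩ := List.append_of_mem hbk
      obtain ⟨u, w, huw⟩ := List.append_of_mem (show a k ∈ f from hak)
      have hQ' : f' ++ m ++ f = x ++ b k :: ((y ++ m ++ u) ++ a k :: w) := by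
        rw [hxy, huw]; simp
      refine ⟨b k :: ((y ++ m ++ u) ++ a k :: μ k), ?_, ?_, ?_⟩
      · refine cls_cyc (x := x) (w := w) (by rw [← hQ']; exact hQ) hcon ?_
        intro v hv
        apply hTQ
        rw [hQ']
        simp only [List.mem_cons, List.mem_append, List.not_mem_nil, or_false] at hv ⊢
        tauto
      · intro v hv
        have hv2 : v ∈ f' ++ m ++ f ∨ v ∈ μ k := by
          rw [hQ']
          simp only [List.mem_cons, List.mem_append] at hv ⊢
          tauto
        rcases hv2 with hv2 | hv2
        · exact ⟨Or.inl hv2, fun hv3 => hpQ hv3 hv2⟩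
        · exact ⟨Or.inr (hcon.2 v hv2).1, fun hv3 => (hcon.2 v hv2).2 (hTp v hv3)⟩
      · have h5 : miss (f' ++ m ++ f) (b k :: ((y ++ m ++ u) ++ a k :: μ k)) ≤
            (x ++ w).length := by
          apply miss_le_of
          intro v hv
          rw [hQ'] at hv
          simp only [List.mem_cons, List.mem_append] at hv ⊢
          tauto
        have h6 : f'.length = x.length + (y.length + 1) := by rw [hxy]; simp
        have h7 : f.length = u.length + (w.length + 1) := by rw [huw]; simp
        rw [List.length_append] at h5
        nlinarith [Nat.zero_le ((j + 1) * s)]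
    · push Not at hcase
      have hb : ∀ k ∈ I, b k ∈ m ∨ b k ∈ p := by
        intro k hkI
        obtain ⟨-, hbT, hbf, -⟩ := hk k hkI
        rw [hT] at hbT
        rcases hbT with h5 | h5
        · exact Or.inr h5
        · simp only [List.mem_append] at h5
          rcases h5 with (h5 | h5) | h5
          · exact absurd h5 (hcase k hkI)
          · exact Or.inl h5
          · exact absurd h5 hbf
      have hbb : ∀ k ∈ I, ∀ k' ∈ I, k ≠ k' → b k ≠ b k' := by
        intro k hkI k' hkI' hne he
        exact hdis k hkI k' hkI' hne (a := b k) (by simp) (by rw [he]; simp)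
      have hmn : m.Nodup := by
        have h5 := (List.nodup_append.mp hQ.1).1
        exact (List.nodup_append.mp h5).2.1
      have hmN : m.length ≤ N := hmn.length_le_card.trans hN
      have hpN : p.length ≤ N := hp.1.length_le_card.trans hN
      obtain ⟨I', hI', hM, hcell⟩ := h2 V N s ((2 * (N / s + 1) + 1) ^ j) I b m p hmn hp.1 hmN hpN
        hs hb (cls_num _ _ _ hI)
      have hI'0 : I'.Nonempty := by
        rw [← Finset.card_pos]
        omega
      rcases hcell with ⟨x, z, y, hm, hzs, hbz⟩ | ⟨x, z, y, hpe, hzs, hbz⟩
      · -- case 2a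
        obtain ⟨⟨k₁, hk₁, z₁, z₂, hz, hz₂⟩, -⟩ := h3 V I' b z hI'0 hbz
          (fun k hk k' hk' => hbb k (hI' hk) k' (hI' hk'))
        obtain ⟨hak, -, -, haC, hbC, hcon, -⟩ := hk k₁ (hI' hk₁)
        obtain ⟨u, w, huw⟩ := List.append_of_mem (show a k₁ ∈ f from hak)
        have hQ' : f' ++ m ++ f =
            (f' ++ x ++ z₁) ++ b k₁ :: ((z₂ ++ y ++ u) ++ a k₁ :: w) := by
          rw [hm, hz, huw]; simp
        obtain ⟨m₁, hm₁⟩ : ∃ m₁ : List V,
          m₁ = (x ++ z₁) ++ b k₁ :: ((μ k₁).reverse ++ a k₁ :: (y ++ u).reverse) := ⟨_, rfl⟩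
        have hQ₁ : f' ++ m₁ ++ z₂.reverse =
            (f' ++ x ++ z₁) ++ b k₁ :: ((μ k₁).reverse ++ a k₁ :: (z₂ ++ y ++ u).reverse) := by
          rw [hm₁]; simp
        have hP₁ : IsP G (f' ++ m₁ ++ z₂.reverse) := by
          rw [hQ₁]
          refine isP_rotate (w := w) (by rw [← hQ']; exact hQ) hcon ?_
          intro v hv
          exact hTQ v (by rw [hQ']; exact hv)
        have hel : ∀ v ∈ f' ++ m₁ ++ z₂.reverse, v ∈ f' ++ m ++ f ∨ v ∈ μ k₁ := by
          intro v hv
          rw [hQ₁] at hv
          rw [hQ']
          simp only [List.mem_cons, List.mem_append, List.mem_reverse] at hv ⊢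
          tauto
        have hle : ∀ v ∈ f' ++ m ++ f, v ∈ f' ++ m₁ ++ z₂.reverse ∨ v ∈ w := by
          intro v hv
          rw [hQ'] at hv
          rw [hQ₁]
          simp only [List.mem_cons, List.mem_append, List.mem_reverse] at hv ⊢
          tauto
        have hdis₁ : List.Disjoint p (f' ++ m₁ ++ z₂.reverse) := by
          intro v hv hv2
          rcases hel v hv2 with hv3 | hv3
          · exact hpQ hv hv3
          · exact (hcon.2 v hv3).2 (hTp v hv)
        have hlnk₁ : Lnk G C {v | v ∈ z₂.reverse} {v | v ∈ f'} j (I'.erase k₁)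
            (fun k => b k :: ρ k) := by
          refine (hlnk j le_rfl (I'.erase k₁) ((Finset.erase_subset _ _).trans hI')).mono
            (Finset.Subset.refl _) ?_
          rintro v ⟨k, hk, rfl⟩
          rw [Finset.mem_erase] at hk
          exact List.mem_reverse.mpr (hz₂ k hk.2 hk.1)
        have hcard : (2 * (N / s + 1) + 1) ^ j ≤ (I'.erase k₁).card := by
          rw [Finset.card_erase_of_mem hk₁]
          omega
        have hwf : w.length ≤ f.length := by rw [huw]; simp; omega
        have hzl : z₂.length ≤ s := by
          have h5 : z.length = z₁.length + (z₂.length + 1) := by rw [hz]; simp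
          omega
        rcases ih p f' m₁ z₂.reverse (I'.erase k₁) _ hp hP₁ hdis₁ hlnk₁ hcard with
          ⟨q, hq1, hq2, hq3⟩ | ⟨o, ho1, ho2, ho3⟩
        · left
          refine ⟨q, hq1, ?_, ?_⟩
          · intro v hv
            rcases hq2 v hv with h5 | h5 | h5
            · exact Or.inl h5
            · rcases hel v h5 with h6 | h6
              · exact Or.inr (Or.inl h6)
              · exact Or.inr (Or.inr (hcon.2 v h6).1)
            · exact Or.inr (Or.inr h5)
          · have h5 : miss (p ++ (f' ++ m ++ f)) q ≤
                w.length + miss (p ++ (f' ++ m₁ ++ z₂.reverse)) q := by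
              apply miss_trans
              intro v hv
              rcases List.mem_append.mp hv with hv | hv
              · exact Or.inl (List.mem_append_left _ hv)
              · rcases hle v hv with h6 | h6
                · exact Or.inl (List.mem_append_right _ h6)
                · exact Or.inr h6
            rw [List.length_reverse] at hq3
            nlinarith
        · right
          refine ⟨o, ho1, ?_, ?_⟩
          · intro v hv
            obtain ⟨h5, h6⟩ := ho2 v hv
            refine ⟨?_, h6⟩
            rcases h5 with h5 | h5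
            · rcases hel v h5 with h6 | h6
              · exact Or.inl h6
              · exact Or.inr (hcon.2 v h6).1
            · exact Or.inr h5
          · have h5 : miss (f' ++ m ++ f) o ≤ w.length + miss (f' ++ m₁ ++ z₂.reverse) o :=
              miss_trans hle
            rw [List.length_reverse] at ho3
            nlinarith
      · -- case 2b
        left
        obtain ⟨⟨k₁, hk₁, z₁, z₂, hz, hz₂⟩, -⟩ := h3 V I' b z hI'0 hbz
          (fun k hk k' hk' => hbb k (hI' hk) k' (hI' hk'))
        obtain ⟨hak, -, -, haC, hbC, hcon, -⟩ := hk k₁ (hI' hk₁)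
        obtain ⟨u, w, huw⟩ := List.append_of_mem (show a k₁ ∈ f from hak)
        have hQ' : f' ++ m ++ f = (f' ++ m ++ u) ++ a k₁ :: w := by
          rw [huw]; simp
        have hpe' : p = (x ++ z₁) ++ b k₁ :: (z₂ ++ y) := by
          rw [hpe, hz]; simp
        have hp2 := hp
        rw [hpe', isP_split] at hp2
        obtain ⟨hpa, hpb, hpd⟩ := hp2
        have hQa : IsP G (a k₁ :: (f' ++ m ++ u).reverse) := by
          have h5 := hQ
          rw [hQ', isP_split] at h5
          have h6 := h5.1.reverse
          simpa using h6
        obtain ⟨p₂, hp₂⟩ : ∃ p₂ : List V,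
          p₂ = (x ++ z₁) ++ b k₁ :: ((μ k₁).reverse ++ a k₁ :: (m ++ u).reverse) := ⟨_, rfl⟩
        have hP₂e : p₂ ++ f'.reverse =
            (x ++ z₁) ++ b k₁ :: ((μ k₁).reverse ++ a k₁ :: (f' ++ m ++ u).reverse) := by
          rw [hp₂]; simp
        have hP₂ : IsP G (p₂ ++ f'.reverse) := by
          rw [hP₂e]
          refine isP_join hpa hQa ?_ hcon.reverse ?_ ?_
          · intro v hv hv2
            have hv3 : v ∈ p := by
              rw [hpe']
              simp only [List.mem_cons, List.mem_append, List.not_mem_nil, or_false] at hv ⊢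
              tauto
            have hv4 : v ∈ f' ++ m ++ f := by
              rw [hQ']
              simp only [List.mem_cons, List.mem_append, List.mem_reverse] at hv2 ⊢
              tauto
            exact hpQ hv3 hv4
          · intro v hv
            apply hTp
            rw [hpe']
            exact List.mem_append_left _ hv
          · intro v hv
            apply hTQ
            rw [hQ']
            exact List.mem_append_left _ (List.mem_reverse.mp hv)
        have hP₁ : IsP G (y.reverse ++ z₂.reverse) := by
          have h5 : IsP G (z₂ ++ y) := IsP.right (l := [b k₁]) (by simpa using hpb)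
          have h6 := h5.reverse
          simpa using h6
        have hdis₁ : List.Disjoint (y.reverse ++ z₂.reverse) (p₂ ++ f'.reverse) := by
          intro v hv hv2
          have hv3 : v ∈ z₂ ++ y := by
            simp only [List.mem_append, List.mem_reverse] at hv ⊢
            tauto
          have hv4 : v ∈ p := by
            rw [hpe']
            exact List.mem_append_right _ (List.mem_cons_of_mem _ hv3)
          rw [hP₂e] at hv2
          rcases List.mem_append.mp hv2 with hv5 | hv5
          · exact hpd hv5 hv3
          · rcases List.mem_cons.mp hv5 with hv5 | hv5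
            · have h5 := (List.nodup_cons.mp hpb.1).1
              rw [← hv5] at h5
              exact h5 hv3
            · rcases List.mem_append.mp hv5 with hv5 | hv5
              · exact (hcon.2 v (List.mem_reverse.mp hv5)).2 (hTp v hv4)
              · apply hpQ hv4
                rw [hQ']
                simp only [List.mem_cons, List.mem_append, List.mem_reverse] at hv5 ⊢
                tauto
        have hlnk₁ : Lnk G C {v | v ∈ z₂.reverse} {v | v ∈ f'.reverse} j (I'.erase k₁)
            (fun k => b k :: ρ k) := by
          refine ((hlnk j le_rfl (I'.erase k₁) ((Finset.erase_subset _ _).trans hI')).mono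
            (Finset.Subset.refl _) ?_).mono2 ?_
          · rintro v ⟨k, hk, rfl⟩
            rw [Finset.mem_erase] at hk
            exact List.mem_reverse.mpr (hz₂ k hk.2 hk.1)
          · intro v hv
            exact List.mem_reverse.mpr hv
        have hcard : (2 * (N / s + 1) + 1) ^ j ≤ (I'.erase k₁).card := by
          rw [Finset.card_erase_of_mem hk₁]
          omega
        have hwf : w.length ≤ f.length := by rw [huw]; simp; omega
        have hzl : z₂.length ≤ s := by
          have h5 : z.length = z₁.length + (z₂.length + 1) := by rw [hz]; simp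
          omega
        obtain ⟨q, hq1, hq2, hq3⟩ := h4 V G N s C hN hs j y.reverse z₂.reverse p₂ f'.reverse
          (I'.erase k₁) _ hP₁ hP₂ hdis₁ hlnk₁ hcard
        refine ⟨q, hq1, ?_, ?_⟩
        · intro v hv
          rcases hq2 v hv with h5 | h5 | h5
          · left
            rw [hpe']
            simp only [List.mem_cons, List.mem_append, List.mem_reverse] at h5 ⊢
            tauto
          · rw [hP₂e] at h5
            have h6 : v ∈ p ∨ v ∈ f' ++ m ++ f ∨ v ∈ μ k₁ := by
              rw [hpe', hQ']
              simp only [List.mem_cons, List.mem_append, List.mem_reverse] at h5 ⊢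
              tauto
            rcases h6 with h6 | h6 | h6
            · exact Or.inl h6
            · exact Or.inr (Or.inl h6)
            · exact Or.inr (Or.inr (hcon.2 v h6).1)
          · exact Or.inr (Or.inr h5)
        · have h5 : miss (p ++ (f' ++ m ++ f)) q ≤
              w.length + miss (y.reverse ++ z₂.reverse ++ (p₂ ++ f'.reverse)) q := by
            apply miss_trans
            intro v hv
            rw [hpe', hQ'] at hv
            rw [hP₂e]
            simp only [List.mem_cons, List.mem_append, List.mem_reverse] at hv ⊢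
            tauto
          rw [List.length_reverse, List.length_reverse] at hq3
          nlinarith

end Pool.Agent.Lib.MP_29e7a7_co.PP
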