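import Pool.Agent.Lib.MP_29e7a7_co.PP.Stm

set_option autoImplicit false

namespace Pool.Agent.Lib.MP_29e7a7_co.PP

variable {V : Type} {G : SimpleGraph V}

/-- positions in a list without double elements -/
private theorem cyc_pos [DecidableEq V] {l : List V} (hl : l.Nodup) {a b : V} (ha : a ∈ l)
    (hb : b ∈ l) (h : l.idxOf a < l.idxOf b) :
    ∃ u y z : List V, l = u ++ a :: (y ++ b :: z) ∧ y.length + 1 + l.idxOf a = l.idxOf b := by
  obtain ⟨u, t, rfl⟩ := List.append_of_mem ha
  have hn := List.nodup_append.mp hl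
  have hau : a ∉ u := fun h1 => hn.2.2 a h1 a List.mem_cons_self rfl
  have hia : (u ++ a :: t).idxOf a = u.length := by
    rw [List.idxOf_append_of_notMem hau, List.idxOf_cons_self, add_zero]
  have hbu : b ∉ u := by
    intro h1
    have h2 : (u ++ a :: t).idxOf b < u.length := by
      rw [List.idxOf_append_of_mem h1]
      exact List.idxOf_lt_length_of_mem h1
    omega
  have hba : b ≠ a := by
    rintro rfl
    exact lt_irrefl _ h
  have hbt : b ∈ t := by
    rcases List.mem_append.mp hb with h1 | h1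
    · exact absurd h1 hbu
    · rcases List.mem_cons.mp h1 with h1 | h1
      · exact absurd h1 hba
      · exact h1
  obtain ⟨y, z, rfl⟩ := List.append_of_mem hbt
  have hby : b ∉ y := by
    intro h1
    have h2 := (List.nodup_cons.mp hn.2.1).2
    exact (List.nodup_append.mp h2).2.2 b h1 b List.mem_cons_self rfl
  refine ⟨u, y, z, rfl, ?_⟩
  rw [hia, List.idxOf_append_of_notMem hbu, List.idxOf_cons_ne _ (Ne.symm hba),
    List.idxOf_append_of_notMem hby, List.idxOf_cons_self]
  omega

/-- the route around a cycle -/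
private theorem cyc_arc {o u o₁ w : List V} {a a' : V} (ho : IsCyc G o)
    (h : o = u ++ a :: (o₁ ++ a' :: w)) : IsP G (a' :: ((w ++ u) ++ [a])) := by
  obtain ⟨hn, x, l, hxl, hc⟩ := ho
  constructor
  · rw [h] at hn
    have h1 : (a' :: ((w ++ u) ++ [a])).Perm ((u ++ [a]) ++ (a' :: w)) := by
      have h2 : a' :: ((w ++ u) ++ [a]) = (a' :: w) ++ (u ++ [a]) := by simp
      rw [h2]
      exact List.perm_append_comm
    rw [h1.nodup_iff]
    have h3 : ((u ++ [a]) ++ (a' :: w)).Sublist (u ++ a :: (o₁ ++ a' :: w)) := by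
      have h4 : u ++ a :: (o₁ ++ a' :: w) = (u ++ [a]) ++ (o₁ ++ (a' :: w)) := by simp
      rw [h4]
      exact List.Sublist.append (List.Sublist.refl _) (List.sublist_append_right _ _)
    exact hn.sublist h3
  · cases u with
    | nil =>
      have h1 : x = a ∧ l = o₁ ++ a' :: w := by
        rw [hxl] at h
        simpa using h
      obtain ⟨rfl, rfl⟩ := h1
      have h2 : x :: (o₁ ++ a' :: w ++ [x]) = (x :: o₁) ++ a' :: (w ++ [x]) := by simp
      rw [h2, List.isChain_split] at hc
      simpa using hc.2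
    | cons y u =>
      have h1 : x = y ∧ l = u ++ a :: (o₁ ++ a' :: w) := by
        rw [hxl] at h
        simpa using h
      obtain ⟨rfl, rfl⟩ := h1
      have h2 : x :: (u ++ a :: (o₁ ++ a' :: w) ++ [x]) =
          (x :: u) ++ a :: (o₁ ++ a' :: (w ++ [x])) := by simp
      rw [h2, List.isChain_split] at hc
      have h3 : a :: (o₁ ++ a' :: (w ++ [x])) = (a :: o₁) ++ a' :: (w ++ [x]) := by simp
      have h4 := hc.2
      rw [h3, List.isChain_split] at h4
      have h5 : a' :: ((w ++ x :: u) ++ [a]) = (a' :: w) ++ x :: (u ++ [a]) := by simp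
      rw [h5, List.isChain_split]
      exact ⟨by simpa using h4.2, by simpa using hc.1⟩

/-- a route from `a` to `a'` in a cycle -/
private theorem cyc_route [DecidableEq V] {o : List V} (ho : IsCyc G o) {a a' : V} {s : ℕ}
    (ha : a ∈ o) (ha' : a' ∈ o) (hne : a ≠ a') (hs : o.idxOf a / s = o.idxOf a' / s)
    (hs1 : 1 ≤ s) : ∃ m d : List V, IsP G (a :: (m ++ [a'])) ∧ (∀ v ∈ m, v ∈ o) ∧
      d.length ≤ s ∧ ∀ v ∈ o, v ∈ a :: (m ++ [a']) ∨ v ∈ d := by
  have hidx : o.idxOf a ≠ o.idxOf a' := fun h => hne ((List.idxOf_inj ha).mp h)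
  have hdiv : ∀ i j : ℕ, i / s = j / s → i < j → j < i + s := by
    intro i j h1 h2
    have h3 := Nat.div_add_mod i s
    have h4 := Nat.div_add_mod j s
    have h5 := Nat.mod_lt j (show 0 < s from hs1)
    rw [h1] at h3
    omega
  rcases lt_or_gt_of_ne hidx with h | h
  · obtain ⟨u, y, z, ho1, hy⟩ := cyc_pos ho.1 ha ha' h
    have h1 := cyc_arc ho ho1
    refine ⟨(z ++ u).reverse, y, ?_, ?_, ?_, ?_⟩
    · have h2 := h1.reverse
      simpa using h2
    · intro v hv
      rw [ho1]
      simp only [List.mem_reverse, List.mem_append] at hv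
      simp only [List.mem_append, List.mem_cons]
      tauto
    · have := hdiv _ _ hs h
      omega
    · intro v hv
      rw [ho1] at hv
      simp only [List.mem_append, List.mem_cons] at hv
      simp only [List.mem_append, List.mem_cons, List.mem_reverse, List.not_mem_nil, or_false]
      tauto
  · obtain ⟨u, y, z, ho1, hy⟩ := cyc_pos ho.1 ha' ha h
    have h1 := cyc_arc ho ho1
    refine ⟨z ++ u, y, h1, ?_, ?_, ?_⟩
    · intro v hv
      rw [ho1]
      simp only [List.mem_append] at hv
      simp only [List.mem_append, List.mem_cons]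
      tauto
    · have := hdiv _ _ hs.symm h
      omega
    · intro v hv
      rw [ho1] at hv
      simp only [List.mem_append, List.mem_cons] at hv
      simp only [List.mem_append, List.mem_cons, List.not_mem_nil, or_false]
      tauto

private theorem cyc_core [Fintype V] [DecidableEq V] {C : Finset V} {s : ℕ} (hs1 : 1 ≤ s)
    {p o : List V} (hp : IsP G p) (ho : IsCyc G o) (hd : List.Disjoint o p)
    {a b a' b' : V} {μ μ' : List V} (ha : a ∈ o) (ha' : a' ∈ o) (hb : b ∈ p) (hb' : b' ∈ p)
    (hc : Con G C {v | v ∈ o ∨ v ∈ p} a μ b) (hc' : Con G C {v | v ∈ o ∨ v ∈ p} a' μ' b')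
    (hdis : List.Disjoint (a :: (μ ++ [b])) (a' :: (μ' ++ [b'])))
    (hs : o.idxOf a / s = o.idxOf a' / s) (hs' : p.idxOf b / s = p.idxOf b' / s)
    (hlt : p.idxOf b < p.idxOf b') :
    ∃ q : List V, IsP G q ∧ (∀ v ∈ q, v ∈ p ∨ v ∈ o ∨ v ∈ C) ∧ miss (p ++ o) q ≤ 2 * s := by
  have hne : a ≠ a' := by
    rintro rfl
    exact hdis List.mem_cons_self List.mem_cons_self
  obtain ⟨m, d, hr, hm, hdl, hmd⟩ := cyc_route ho ha ha' hne hs hs1
  obtain ⟨x, y, z, hpx, hy⟩ := cyc_pos hp.1 hb hb' hlt
  have hyl : y.length ≤ s := by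
    have h3 := Nat.div_add_mod (p.idxOf b) s
    have h4 := Nat.div_add_mod (p.idxOf b') s
    have h5 := Nat.mod_lt (p.idxOf b') (show 0 < s from hs1)
    rw [hs'] at h3
    omega
  have hpm : ∀ v, v ∈ p ↔ v ∈ x ∨ v = b ∨ v ∈ y ∨ v = b' ∨ v ∈ z := by
    intro v
    rw [hpx]
    simp only [List.mem_append, List.mem_cons]
  have hp1 : IsP G (x ++ [b]) ∧ IsP G (b :: (y ++ b' :: z)) ∧ List.Disjoint x (y ++ b' :: z) := by
    rw [← isP_split, ← hpx]
    exact hp
  have hp2 : IsP G (b' :: z) := by
    have h1 : IsP G ((b :: y) ++ b' :: z) := by simpa using hp1.2.1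
    exact (isP_split.mp h1).2.1
  have hro : ∀ v ∈ a :: (m ++ [a']), v ∈ o := by
    intro v hv
    simp only [List.mem_cons, List.mem_append, List.not_mem_nil, or_false] at hv
    rcases hv with rfl | hv | rfl
    · exact ha
    · exact hm v hv
    · exact ha'
  have hq1 : IsP G ((a :: m) ++ a' :: (μ' ++ b' :: z)) := by
    refine isP_join (by simpa using hr) hp2 ?_ hc' ?_ ?_
    · intro v hv hv2
      refine hd (hro v (by simpa using hv)) ?_
      rw [hpm]
      rcases List.mem_cons.mp hv2 with h1 | h1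
      · tauto
      · tauto
    · intro v hv
      left
      exact hro v (by
        rcases List.mem_cons.mp hv with h1 | h1
        · rw [h1]; exact List.mem_cons_self
        · simp [h1])
    · intro v hv
      right
      rw [hpm]
      tauto
  have hc2 : Con G C ({v | v ∈ o ∨ v ∈ p} ∪ {v | v ∈ μ'}) b μ.reverse a := by
    refine ⟨hc.reverse.1, fun v hv => ⟨(hc.reverse.2 v hv).1, ?_⟩⟩
    rintro (h1 | h1)
    · exact (hc.reverse.2 v hv).2 h1
    · refine hdis (a := v) ?_ ?_
      · have := List.mem_reverse.mp hv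
        simp [this]
      · have h2 : v ∈ μ' := h1
        simp [h2]
  have hq2 : IsP G (x ++ b :: (μ.reverse ++ a :: (m ++ a' :: (μ' ++ b' :: z)))) := by
    refine isP_join hp1.1 (by simpa using hq1) ?_ hc2 ?_ ?_
    · intro v hv hv2
      have hvp : v ∈ p := by
        rw [hpm]
        simp only [List.mem_append, List.mem_cons, List.not_mem_nil, or_false] at hv
        tauto
      simp only [List.mem_cons, List.mem_append] at hv2
      have hvz : v ∉ y ++ b' :: z := by
        intro h1
        simp only [List.mem_append, List.mem_cons, List.not_mem_nil, or_false] at hv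
        rcases hv with h2 | h2
        · exact hp1.2.2 h2 h1
        · subst h2
          exact (List.nodup_cons.mp hp1.2.1.1).1 h1
      have hvo : v ∉ o := fun h1 => hd h1 hvp
      rcases hv2 with h1 | h1 | h1 | h1 | h1 | h1
      · exact hvo (h1 ▸ ha)
      · exact hvo (hm v h1)
      · exact hvo (h1 ▸ ha')
      · exact (hc'.2 v h1).2 (Or.inr hvp)
      · exact hvz (by simp [h1])
      · exact hvz (by simp [h1])
    · intro v hv
      left
      right
      rw [hpm]
      tauto
    · intro v hv
      simp only [List.mem_cons, List.mem_append] at hv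
      rcases hv with h1 | h1 | h1 | h1 | h1
      · exact Or.inl (Or.inl (hm v h1))
      · exact Or.inl (Or.inl (h1 ▸ ha'))
      · exact Or.inr h1
      · exact Or.inl (Or.inr (h1 ▸ hb'))
      · left; right; rw [hpm]; tauto
  refine ⟨_, hq2, ?_, ?_⟩
  · intro v hv
    simp only [List.mem_append, List.mem_cons, List.mem_reverse] at hv
    rcases hv with h1 | h1 | h1 | h1 | h1 | h1 | h1 | h1 | h1
    · left; rw [hpm]; tauto
    · left; rw [hpm]; tauto
    · exact Or.inr (Or.inr (hc.2 v h1).1)
    · exact Or.inr (Or.inl (h1 ▸ ha))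
    · exact Or.inr (Or.inl (hm v h1))
    · exact Or.inr (Or.inl (h1 ▸ ha'))
    · exact Or.inr (Or.inr (hc'.2 v h1).1)
    · left; rw [hpm]; tauto
    · left; rw [hpm]; tauto
  · refine (miss_le_of (d := y ++ d) ?_).trans ?_
    · intro v hv
      simp only [List.mem_append, List.mem_cons, List.mem_reverse]
      rcases List.mem_append.mp hv with h1 | h1
      · rw [hpm] at h1
        tauto
      · have h2 := hmd v h1
        simp only [List.mem_append, List.mem_cons, List.not_mem_nil, or_false] at h2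
        tauto
    · rw [List.length_append]
      omega

theorem p_cyc : S_cyc := by
  intro h1 V _ _ G N s C hN hs j p o I R hp ho hd hL hcard
  have hI : I.Nonempty := by
    rw [← Finset.card_pos]
    omega
  obtain ⟨a, b, μ, ρ, h2, h3, -⟩ := h1 V G C {v | v ∈ o ∨ v ∈ p} {v | v ∈ o} {v | v ∈ p} j I R
    (fun v hv => Or.inl hv) (fun v hv => Or.inr hv)
    (Set.disjoint_left.mpr fun v hv hv2 => hd hv hv2) hI hL
  have hbp : ∀ k ∈ I, b k ∈ p := by
    intro k hk
    obtain ⟨-, h4, h5, -⟩ := h2 k hk
    rcases h4 with h4 | h4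
    · exact absurd h4 h5
    · exact h4
  have hon : o.length ≤ N := (ho.1.length_le_card).trans hN
  have hpn : p.length ≤ N := (hp.1.length_le_card).trans hN
  obtain ⟨k, hk, k', hk', hne, hf⟩ := Finset.exists_ne_map_eq_of_card_lt_of_maps_to
    (s := I) (t := Finset.range (N / s + 1) ×ˢ Finset.range (N / s + 1))
    (f := fun k => (o.idxOf (a k) / s, p.idxOf (b k) / s)) (by
      rw [Finset.card_product, Finset.card_range]
      rw [sq] at hcard
      exact hcard) (by
      intro k hk
      rw [Finset.mem_coe, Finset.mem_product, Finset.mem_range, Finset.mem_range]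
      have h4 : o.idxOf (a k) < o.length := List.idxOf_lt_length_of_mem (h2 k hk).1
      have h5 : p.idxOf (b k) < p.length := List.idxOf_lt_length_of_mem (hbp k hk)
      exact ⟨Nat.lt_succ_of_le (Nat.div_le_div_right (by omega)),
        Nat.lt_succ_of_le (Nat.div_le_div_right (by omega))⟩)
  have hf1 := congrArg Prod.fst hf
  have hf2 := congrArg Prod.snd hf
  simp only at hf1 hf2
  have hbne : b k ≠ b k' := by
    intro h4
    refine h3 k hk k' hk' hne (a := b k) (by simp) ?_
    rw [h4]
    simp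
  have hidx : p.idxOf (b k) ≠ p.idxOf (b k') := fun h => hbne ((List.idxOf_inj (hbp k hk)).mp h)
  rcases lt_or_gt_of_ne hidx with h | h
  · exact cyc_core hs hp ho hd (h2 k hk).1 (h2 k' hk').1 (hbp k hk) (hbp k' hk')
      (h2 k hk).2.2.2.2.2.1 (h2 k' hk').2.2.2.2.2.1 (h3 k hk k' hk' hne) hf1 hf2 h
  · exact cyc_core hs hp ho hd (h2 k' hk').1 (h2 k hk).1 (hbp k' hk') (hbp k hk)
      (h2 k' hk').2.2.2.2.2.1 (h2 k hk).2.2.2.2.2.1 (h3 k' hk' k hk hne.symm) hf1.symm hf2.symm h

end Pool.Agent.Lib.MP_29e7a7_co.PP
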