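import Pool.Agent.Lib.MP_29e7a7_co.PP.Stm

/-!
# PP dec: decomposition into linked sets
-/

set_option autoImplicit false

namespace Pool.Agent.Lib.MP_29e7a7_co.PP

open Finset

private theorem dec_card {V : Type} [DecidableEq V] {U Y S C : Finset V} {e e' k : ℕ}
    (hSU : S ⊆ U) (hY : Y.card ≤ k) (he : e' + k ≤ e) (hS : e ≤ S.card)
    (hC : S ∩ (U \ Y) ⊆ C) : e' ≤ C.card := by
  have h1 : S ⊆ (S ∩ (U \ Y)) ∪ Y := by
    intro v hv
    rw [mem_union, mem_inter, mem_sdiff]
    by_cases h : v ∈ Y
    · exact Or.inr h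
    · exact Or.inl ⟨hv, hSU hv, h⟩
  have h2 := (card_le_card h1).trans (card_union_le _ _)
  have h3 := card_le_card hC
  omega

private theorem dec_claim (hsep : S_sep) (hball : S_ball) {V : Type} [Fintype V] [DecidableEq V]
    (G : SimpleGraph V) (N L K e e' : ℕ) (hN : Fintype.card V ≤ N) (hL : 1 ≤ L) (he1 : 1 ≤ e')
    (he : e' + K * (L + 1) ≤ e) (U : Finset V) : e' ≤ U.card →
    ∃ F : Finset (Finset V), (∀ C ∈ F, C ⊆ U ∧ Linked G e K L C ∧ e' ≤ C.card) ∧
      (∀ C ∈ F, ∀ C' ∈ F, C ≠ C' → Disjoint C C' ∧ ∀ x ∈ C, ∀ y ∈ C', ¬ G.Adj x y) ∧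
      (U \ F.biUnion id).card + (K * (L + 1) + N / L) ≤ F.card * (K * (L + 1) + N / L) := by
  induction U using Finset.strongInduction with
  | H U ih =>
    intro hU
    by_cases hlk : Linked G e K L U
    · refine ⟨{U}, ?_, ?_, ?_⟩
      · intro C hC
        rw [mem_singleton] at hC
        subst hC
        exact ⟨Subset.rfl, hlk, hU⟩
      · intro C hC C' hC' hne
        rw [mem_singleton] at hC hC'
        exact absurd (hC.trans hC'.symm) hne
      · rw [card_singleton, singleton_biUnion, id, sdiff_self]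
        simp
    · unfold Linked at hlk
      push Not at hlk
      obtain ⟨S, S', hS, hS', hd, hSe, hSe', hR⟩ := hlk
      obtain ⟨Y, hYU, hYc, hY⟩ := hsep V G K L U S S' (fun ⟨R, h⟩ => hR R h)
      obtain ⟨C', C'', h1, h2, h3, h4, h5, h6, h7⟩ := hball V G N L (U \ Y) S S' hN hL hY
      have hc' : e' ≤ C'.card := dec_card hS hYc he hSe h4
      have hc'' : e' ≤ C''.card := dec_card hS' hYc he hSe' h5
      have hsub' : C' ⊆ U := h1.trans sdiff_subset
      have hsub'' : C'' ⊆ U := h2.trans sdiff_subset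
      have hss' : C' ⊂ U := by
        refine ⟨hsub', fun hcon => ?_⟩
        obtain ⟨x, hx⟩ := card_pos.mp (lt_of_lt_of_le he1 hc'')
        exact (disjoint_left.mp h3) (hcon (hsub'' hx)) hx
      have hss'' : C'' ⊂ U := by
        refine ⟨hsub'', fun hcon => ?_⟩
        obtain ⟨x, hx⟩ := card_pos.mp (lt_of_lt_of_le he1 hc')
        exact (disjoint_left.mp h3) hx (hcon (hsub' hx))
      obtain ⟨F', f1, f2, f3⟩ := ih C' hss' hc'
      obtain ⟨F'', g1, g2, g3⟩ := ih C'' hss'' hc''
      have hFd : Disjoint F' F'' := by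
        rw [disjoint_left]
        intro C hC hC2
        obtain ⟨x, hx⟩ := card_pos.mp (lt_of_lt_of_le he1 (f1 C hC).2.2)
        exact (disjoint_left.mp h3) ((f1 C hC).1 hx) ((g1 C hC2).1 hx)
      have hcross : ∀ C ∈ F', ∀ D ∈ F'', Disjoint C D ∧ ∀ x ∈ C, ∀ y ∈ D, ¬ G.Adj x y := by
        intro C hC D hD
        exact ⟨disjoint_of_subset_left (f1 C hC).1 (disjoint_of_subset_right (g1 D hD).1 h3),
          fun x hx y hy => h6 x ((f1 C hC).1 hx) y ((g1 D hD).1 hy)⟩
      refine ⟨F' ∪ F'', ?_, ?_, ?_⟩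
      · intro C hC
        rcases mem_union.mp hC with hC | hC
        · exact ⟨(f1 C hC).1.trans hsub', (f1 C hC).2⟩
        · exact ⟨(g1 C hC).1.trans hsub'', (g1 C hC).2⟩
      · intro C hC D hD hne
        rcases mem_union.mp hC with hC | hC
        · rcases mem_union.mp hD with hD | hD
          · exact f2 C hC D hD hne
          · exact hcross C hC D hD
        · rcases mem_union.mp hD with hD | hD
          · obtain ⟨k1, k2⟩ := hcross D hD C hC
            exact ⟨k1.symm, fun x hx y hy hadj => k2 y hy x hx hadj.symm⟩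
          · exact g2 C hC D hD hne
      · have hcov : U \ (F' ∪ F'').biUnion id ⊆ (Y ∪ ((U \ Y) \ (C' ∪ C''))) ∪
            ((C' \ F'.biUnion id) ∪ (C'' \ F''.biUnion id)) := by
          intro v hv
          rw [mem_sdiff] at hv
          obtain ⟨hvU, hvF⟩ := hv
          have hv' : v ∉ F'.biUnion id := by
            intro h
            apply hvF
            rw [mem_biUnion] at h ⊢
            obtain ⟨C, hC, hvC⟩ := h
            exact ⟨C, mem_union_left _ hC, hvC⟩
          have hv'' : v ∉ F''.biUnion id := by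
            intro h
            apply hvF
            rw [mem_biUnion] at h ⊢
            obtain ⟨C, hC, hvC⟩ := h
            exact ⟨C, mem_union_right _ hC, hvC⟩
          simp only [mem_union, mem_sdiff]
          tauto
        have k1 := card_le_card hcov
        have k2 := card_union_le (Y ∪ ((U \ Y) \ (C' ∪ C'')))
          ((C' \ F'.biUnion id) ∪ (C'' \ F''.biUnion id))
        have k3 := card_union_le Y ((U \ Y) \ (C' ∪ C''))
        have k4 := card_union_le (C' \ F'.biUnion id) (C'' \ F''.biUnion id)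
        rw [card_union_of_disjoint hFd, add_mul]
        omega

theorem p_dec : S_dec := by
  intro hsep hball V _ _ G N L K e e' U hN hL he1 he
  by_cases hU : e' ≤ U.card
  · obtain ⟨F, h1, h2, h3⟩ := dec_claim hsep hball G N L K e e' hN hL he1 he U hU
    refine ⟨F, fun C hC => ⟨(h1 C hC).1, (h1 C hC).2.1⟩, h2, ?_⟩
    rw [Nat.le_div_iff_mul_le he1]
    have h4 : F.card * e' ≤ N := by
      have h5 : (F.biUnion id).card = ∑ C ∈ F, (id C).card := by
        apply card_biUnion
        intro C hC D hD hne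
        exact (h2 C hC D hD hne).1
      have h6 : F.card * e' ≤ ∑ C ∈ F, (id C).card := by
        rw [← smul_eq_mul]
        exact card_nsmul_le_sum _ _ _ fun C hC => (h1 C hC).2.2
      have h7 : (F.biUnion id).card ≤ Fintype.card V := card_le_univ _
      omega
    have h5 : (U \ F.biUnion id).card ≤ F.card * (K * (L + 1) + N / L) :=
      (Nat.le_add_right _ _).trans h3
    calc (U \ F.biUnion id).card * e' ≤ F.card * (K * (L + 1) + N / L) * e' :=
          Nat.mul_le_mul_right _ h5
      _ = F.card * e' * (K * (L + 1) + N / L) := by ring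
      _ ≤ N * (K * (L + 1) + N / L) := Nat.mul_le_mul_right _ h4
  · refine ⟨{U}, ?_, ?_, ?_⟩
    · intro C hC
      rw [mem_singleton] at hC
      subst hC
      refine ⟨Subset.rfl, ?_⟩
      intro S S' hS _ _ hSe _
      have := card_le_card hS
      omega
    · intro C hC C' hC' hne
      rw [mem_singleton] at hC hC'
      exact absurd (hC.trans hC'.symm) hne
    · rw [singleton_biUnion, id, sdiff_self]
      simp

end Pool.Agent.Lib.MP_29e7a7_co.PP
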