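import Pool.Agent.Lib.MP_29e7a7_co.PP.Stm

set_option autoImplicit false

namespace Pool.Agent.Lib.MP_29e7a7_co.PP

private theorem ends_first (V : Type) (I : Finset ℕ) (b : ℕ → V)
    (hI : I.Nonempty) (hne : ∀ k ∈ I, ∀ k' ∈ I, k ≠ k' → b k ≠ b k') :
    ∀ z : List V, (∀ k ∈ I, b k ∈ z) →
      ∃ k₁ ∈ I, ∃ z₁ z₂ : List V, z = z₁ ++ b k₁ :: z₂ ∧ ∀ k ∈ I, k ≠ k₁ → b k ∈ z₂ := by
  intro z
  induction z with
  | nil =>
    intro h
    obtain ⟨k, hk⟩ := hI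
    exact absurd (h k hk) (List.not_mem_nil)
  | cons c z' ih =>
    intro h
    by_cases hc : ∃ k₁ ∈ I, b k₁ = c
    · obtain ⟨k₁, hk₁, hbc⟩ := hc
      refine ⟨k₁, hk₁, [], z', ?_, ?_⟩
      · rw [hbc]; rfl
      · intro k hk hkk
        rcases List.mem_cons.mp (h k hk) with h1 | h1
        · exact absurd (h1.trans hbc.symm) (hne k hk k₁ hk₁ hkk)
        · exact h1
    · have h' : ∀ k ∈ I, b k ∈ z' := by
        intro k hk
        rcases List.mem_cons.mp (h k hk) with h1 | h1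
        · exact absurd ⟨k, hk, h1⟩ hc
        · exact h1
      obtain ⟨k₁, hk₁, z₁, z₂, hz, h2⟩ := ih h'
      exact ⟨k₁, hk₁, c :: z₁, z₂, by rw [hz]; rfl, h2⟩

theorem p_ends : S_ends := by
  intro V I b z hI hz hne
  refine ⟨ends_first V I b hI hne z hz, ?_⟩
  obtain ⟨k₁, hk₁, z₁, z₂, h1, h2⟩ := ends_first V I b hI hne z.reverse
    (fun k hk => List.mem_reverse.mpr (hz k hk))
  refine ⟨k₁, hk₁, z₂.reverse, z₁.reverse, ?_, ?_⟩
  · have h3 := congrArg List.reverse h1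
    rw [List.reverse_reverse] at h3
    rw [h3]
    simp
  · intro k hk hkk
    exact List.mem_reverse.mpr (h2 k hk hkk)

end Pool.Agent.Lib.MP_29e7a7_co.PP
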