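import Pool.Agent.Lib.MP_29e7a7_co.PP.Stm

/-!
# Asymptotic path partition theorem: first hits of disjoint paths on a set (piece hit)
-/

set_option autoImplicit false

namespace Pool.Agent.Lib.MP_29e7a7_co.PP

open Finset

/-- splitting at the last element in `A` -/
private theorem hit_last {V : Type} (A : Set V) (l : List V) (h : ∃ v ∈ l, v ∈ A) :
    ∃ (l₀ : List V) (a : V) (l₁ : List V), l = l₀ ++ a :: l₁ ∧ a ∈ A ∧ ∀ v ∈ l₁, v ∉ A := by
  induction l with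
  | nil =>
    obtain ⟨v, hv, -⟩ := h
    exact absurd hv (List.not_mem_nil)
  | cons x l ih =>
    by_cases hl : ∃ v ∈ l, v ∈ A
    · obtain ⟨l₀, a, l₁, h1, h2, h3⟩ := ih hl
      exact ⟨x :: l₀, a, l₁, by rw [h1]; rfl, h2, h3⟩
    · obtain ⟨v, hv, hvA⟩ := h
      rcases List.mem_cons.1 hv with h1 | h1
      · refine ⟨[], x, l, rfl, h1 ▸ hvA, fun w hw hwA => hl ⟨w, hw, hwA⟩⟩
      · exact absurd ⟨v, h1, hvA⟩ hl

/-- splitting at the first element in `T` -/
private theorem hit_first {V : Type} (T : Set V) (l : List V) (h : ∃ v ∈ l, v ∈ T) :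
    ∃ (l₀ : List V) (b : V) (l₁ : List V), l = l₀ ++ b :: l₁ ∧ b ∈ T ∧ ∀ v ∈ l₀, v ∉ T := by
  induction l with
  | nil =>
    obtain ⟨v, hv, -⟩ := h
    exact absurd hv (List.not_mem_nil)
  | cons x l ih =>
    by_cases hx : x ∈ T
    · exact ⟨[], x, l, rfl, hx, fun v hv => absurd hv (List.not_mem_nil)⟩
    · have hl : ∃ v ∈ l, v ∈ T := by
        obtain ⟨v, hv, hvT⟩ := h
        rcases List.mem_cons.1 hv with h1 | h1
        · exact absurd (h1 ▸ hvT) hx
        · exact ⟨v, h1, hvT⟩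
      obtain ⟨l₀, b, l₁, h1, h2, h3⟩ := ih hl
      refine ⟨x :: l₀, b, l₁, by rw [h1]; rfl, h2, fun v hv => ?_⟩
      rcases List.mem_cons.1 hv with h4 | h4
      · rw [h4]
        exact hx
      · exact h3 v h4

private theorem hit_one {V : Type} (T A B : Set V) (hB : B ⊆ T)
    (hAB : Disjoint A B) (l : List V) (hd : ∃ a ∈ A, l.head? = some a)
    (lst : ∃ b ∈ B, l.getLast? = some b) :
    ∃ (l₀ : List V) (a : V) (μ : List V) (b : V) (ρ : List V), l = l₀ ++ a :: (μ ++ b :: ρ) ∧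
      a ∈ A ∧ b ∈ T ∧ b ∉ A ∧ (∀ v ∈ μ, v ∉ T) ∧ (b :: ρ).getLast? = l.getLast? := by
  obtain ⟨a, ha, hda⟩ := hd
  obtain ⟨b, hb, hlb⟩ := lst
  have h1 : ∃ v ∈ l, v ∈ A := ⟨a, List.mem_of_head? hda, ha⟩
  obtain ⟨l₀, a', l', h2, h3, h4⟩ := hit_last A l h1
  have h5 : l' ≠ [] := by
    intro h6
    rw [h2, h6, List.getLast?_append] at hlb
    have h7 : a' = b := by simpa using hlb
    exact Set.disjoint_left.1 hAB h3 (h7 ▸ hb)
  have h6 : l'.getLast? = l.getLast? := by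
    rw [h2, List.getLast?_append, List.getLast?_cons]
    obtain ⟨x, y, rfl⟩ := List.exists_cons_of_ne_nil h5
    simp [List.getLast?_cons]
  have h7 : ∃ v ∈ l', v ∈ T := by
    rw [hlb] at h6
    exact ⟨b, List.mem_of_getLast? h6, hB hb⟩
  obtain ⟨μ, b', ρ, h8, h9, h10⟩ := hit_first T l' h7
  refine ⟨l₀, a', μ, b', ρ, by rw [h2, h8], h3, h9, ?_, h10, ?_⟩
  · apply h4
    rw [h8]
    exact List.mem_append_right _ List.mem_cons_self
  · rw [← h6, h8, List.getLast?_append]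
    simp [List.getLast?_cons]

/-- [PP hit] First hits. -/
theorem p_hit : S_hit := by
  intro V G C T A B j I R _ hB hAB hI hL
  classical
  obtain ⟨k₀, hk₀⟩ := hI
  obtain ⟨a₀, -, -⟩ := hL.hd k₀ hk₀
  have hex : ∀ k, ∃ (a b : V) (μ ρ l₀ : List V), k ∈ I → R k = l₀ ++ a :: (μ ++ b :: ρ) ∧
      a ∈ A ∧ b ∈ T ∧ b ∉ A ∧ (∀ v ∈ μ, v ∉ T) ∧ (b :: ρ).getLast? = (R k).getLast? := by
    intro k
    by_cases hk : k ∈ I
    · obtain ⟨l₀, a, μ, b, ρ, h⟩ := hit_one T A B hB hAB (R k) (hL.hd k hk) (hL.lst k hk)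
      exact ⟨a, b, μ, ρ, l₀, fun _ => h⟩
    · exact ⟨a₀, a₀, [], [], [], fun h => absurd h hk⟩
  choose a b μ ρ l₀ h using hex
  have hsub1 : ∀ k ∈ I, ∀ v ∈ a k :: (μ k ++ [b k]), v ∈ R k := by
    intro k hk v hv
    rw [(h k hk).1]
    simp only [List.mem_cons, List.mem_append, List.not_mem_nil, or_false] at hv ⊢
    tauto
  have hsub2 : ∀ k ∈ I, ∀ v ∈ b k :: ρ k, v ∈ R k := by
    intro k hk v hv
    rw [(h k hk).1]
    simp only [List.mem_cons, List.mem_append] at hv ⊢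
    tauto
  have hlen : ∀ k ∈ I, (b k :: ρ k).length ≤ j := by
    intro k hk
    have h1 := hL.len k hk
    rw [(h k hk).1] at h1
    simp only [List.length_append, List.length_cons] at h1 ⊢
    omega
  have hpath : ∀ k ∈ I, IsP G (a k :: (μ k ++ b k :: ρ k)) := by
    intro k hk
    have h1 := hL.path k hk
    rw [(h k hk).1] at h1
    exact h1.right
  refine ⟨a, b, μ, ρ, ?_, ?_, ?_⟩
  · intro k hk
    obtain ⟨h1, h2, h3, h4, h5, h6⟩ := h k hk
    refine ⟨h2, h3, h4, ?_, ?_, ⟨?_, ?_⟩, hlen k hk⟩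
    · exact hL.sub k hk _ (hsub1 k hk _ List.mem_cons_self)
    · exact hL.sub k hk _ (hsub2 k hk _ List.mem_cons_self)
    · have h7 := hpath k hk
      have h8 : a k :: (μ k ++ b k :: ρ k) = (a k :: μ k) ++ b k :: ρ k := rfl
      rw [h8, isP_split] at h7
      exact h7.1
    · intro v hv
      refine ⟨hL.sub k hk v (hsub1 k hk v ?_), h5 v hv⟩
      exact List.mem_cons_of_mem _ (List.mem_append_left _ hv)
  · intro k hk k' hk' hkk v hv hv'
    exact hL.dis k hk k' hk' hkk (hsub1 k hk v hv) (hsub1 k' hk' v hv')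
  · intro j' hj I' hI'
    refine ⟨?_, ?_, ?_, ?_, ?_, ?_⟩
    · intro k hk
      have h7 := hpath k (hI' hk)
      have h8 : a k :: (μ k ++ b k :: ρ k) = (a k :: μ k) ++ b k :: ρ k := rfl
      rw [h8] at h7
      exact h7.right
    · intro k hk v hv
      exact hL.sub k (hI' hk) v (hsub2 k (hI' hk) v hv)
    · intro k hk
      exact (hlen k (hI' hk)).trans hj
    · intro k hk
      exact ⟨b k, ⟨k, hk, rfl⟩, rfl⟩
    · intro k hk
      obtain ⟨c, hc, hc2⟩ := hL.lst k (hI' hk)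
      refine ⟨c, hc, ?_⟩
      show (b k :: ρ k).getLast? = some c
      rw [(h k (hI' hk)).2.2.2.2.2, hc2]
    · intro k hk k' hk' hkk v hv hv'
      exact hL.dis k (hI' hk) k' (hI' hk') hkk (hsub2 k (hI' hk) v hv)
        (hsub2 k' (hI' hk') v hv')

end Pool.Agent.Lib.MP_29e7a7_co.PP
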