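import Pool.Agent.Lib.MP_29e7a7_co.PP.Stm

/-!
# Asymptotic path partition theorem: piece ins
-/

set_option autoImplicit false

namespace Pool.Agent.Lib.MP_29e7a7_co.PP

open Finset

private theorem ins_split {V : Type} (Q : List V) (e : ℕ) (h : 2 * e ≤ Q.length) :
    ∃ f' m f : List V, Q = f' ++ m ++ f ∧ f'.length = e ∧ f.length = e := by
  refine ⟨Q.take e, (Q.drop e).take (Q.length - 2 * e), (Q.drop e).drop (Q.length - 2 * e),
    ?_, ?_, ?_⟩
  · rw [List.append_assoc, List.take_append_drop, List.take_append_drop]
  · rw [List.length_take]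
    omega
  · rw [List.length_drop, List.length_drop]
    omega

private theorem ins_miss {V : Type} [DecidableEq V] (p Q o q : List V) :
    miss (p ++ Q) q ≤ miss (p ++ o) q + miss Q o := by
  refine (Finset.card_le_card ?_).trans (Finset.card_union_le _ _)
  intro v hv
  rw [Finset.mem_sdiff, List.mem_toFinset, List.mem_toFinset, List.mem_append] at hv
  rw [Finset.mem_union, Finset.mem_sdiff, Finset.mem_sdiff, List.mem_toFinset, List.mem_toFinset,
    List.mem_toFinset, List.mem_toFinset, List.mem_append]
  tauto

theorem p_ins : S_ins := by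
  intro hcls hcyc V _ _ G N s L K e C hV hs hK1 hK2 hlink p Q hp hQ hQC hlen hcard
  have hex : (L + 2) * s = L * s + 2 * s := by ring
  obtain ⟨f', m, f, hQe, hf', hf⟩ := ins_split Q e (by omega)
  have hQ' := hQ
  rw [hQe] at hQ'
  have hnd := hQ'.1
  have hndf' : f'.Nodup := (List.nodup_append.mp (List.nodup_append.mp hnd).1).1
  have hndf : f.Nodup := (List.nodup_append.mp hnd).2.1
  have hdff : ∀ a ∈ f', ∀ b ∈ f, a ≠ b := fun a ha b hb =>
    (List.nodup_append.mp hnd).2.2 a (List.mem_append_left _ ha) b hb
  have hfQ : ∀ v ∈ f, v ∈ Q := fun v hv => by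
    rw [hQe]
    exact List.mem_append_right _ hv
  have hf'Q : ∀ v ∈ f', v ∈ Q := fun v hv => by
    rw [hQe]
    exact List.mem_append_left _ (List.mem_append_left _ hv)
  obtain ⟨R, hR⟩ := hlink f.toFinset f'.toFinset
    (fun v hv => (hQC v (hfQ v (List.mem_toFinset.mp hv))).1)
    (fun v hv => (hQC v (hf'Q v (List.mem_toFinset.mp hv))).1)
    (by
      rw [Finset.disjoint_left]
      intro v hv hv'
      exact hdff v (List.mem_toFinset.mp hv') v (List.mem_toFinset.mp hv) rfl)
    (by rw [List.toFinset_card_of_nodup hndf, hf])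
    (by rw [List.toFinset_card_of_nodup hndf', hf'])
  have hR1 : Lnk G C {v | v ∈ f} {v | v ∈ f'} L (Finset.range K) R :=
    (hR.mono (Finset.Subset.refl _) (fun v hv => by
      rw [Finset.mem_coe, List.mem_toFinset] at hv
      exact hv)).mono2 (fun v hv => by
      rw [Finset.mem_coe, List.mem_toFinset] at hv
      exact hv)
  have hdis : List.Disjoint p (f' ++ m ++ f) := by
    rw [← hQe]
    intro v hv hv'
    exact (hQC v hv').2 hv
  rcases hcls V G N s C hV hs L p f' m f (Finset.range K) R hp hQ' hdis hR1
    (by rw [Finset.card_range]; exact hK1) with ⟨q, hq, hqs, hqm⟩ | ⟨o, ho, hos, hom⟩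
  · refine ⟨q, hq, ?_, ?_⟩
    · intro v hv
      rcases hqs v hv with h | h | h
      · exact Or.inl h
      · rw [← hQe] at h
        exact Or.inr (hQC v h).1
      · exact Or.inr h
    · rw [← hQe, hf, hf'] at hqm
      omega
  · rw [← hQe, hf, hf'] at hom
    have hoC : ∀ v ∈ o, v ∈ C := by
      intro v hv
      rcases (hos v hv).1 with h | h
      · rw [← hQe] at h
        exact (hQC v h).1
      · exact h
    have hlo := length_le_of_miss (q := o) hQ.1
    obtain ⟨R', hR'⟩ := hlink o.toFinset (p.toFinset ∩ C)
      (fun v hv => hoC v (List.mem_toFinset.mp hv))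
      Finset.inter_subset_right
      (by
        rw [Finset.disjoint_left]
        intro v hv hv'
        exact (hos v (List.mem_toFinset.mp hv)).2
          (List.mem_toFinset.mp (Finset.mem_inter.mp hv').1))
      (by
        rw [List.toFinset_card_of_nodup ho.1]
        omega)
      hcard
    have hR2 : Lnk G C {v | v ∈ o} {v | v ∈ p} L (Finset.range K) R' :=
      (hR'.mono (Finset.Subset.refl _) (fun v hv => by
        rw [Finset.mem_coe, List.mem_toFinset] at hv
        exact hv)).mono2 (fun v hv => by
        rw [Finset.mem_coe, Finset.mem_inter, List.mem_toFinset] at hv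
        exact hv.1)
    obtain ⟨q, hq, hqs, hqm⟩ := hcyc V G N s C hV hs L p o (Finset.range K) R' hp ho
      (fun v hv hv' => (hos v hv).2 hv') hR2 (by rw [Finset.card_range]; exact hK2)
    refine ⟨q, hq, ?_, ?_⟩
    · intro v hv
      rcases hqs v hv with h | h | h
      · exact Or.inl h
      · exact Or.inr (hoC v h)
      · exact Or.inr h
    · have := ins_miss p Q o q
      omega

end Pool.Agent.Lib.MP_29e7a7_co.PP
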