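import Pool.Agent.Lib.MP_29e7a7_co.PP.Stm

/-!
# PP mrg: merging two paths with many short disjoint paths between their ends
-/

set_option autoImplicit false

namespace Pool.Agent.Lib.MP_29e7a7_co.PP

open Finset

private theorem mrg_case1 {V : Type} [DecidableEq V] {G : SimpleGraph V} {C : Finset V}
    {p e p' e' : List V} {a b : V} {μ : List V}
    (hP : IsP G (p ++ e)) (hP' : IsP G (p' ++ e')) (hd : List.Disjoint (p ++ e) (p' ++ e'))
    (ha : a ∈ e) (hb : b ∈ e')
    (hc : Con G C {v | v ∈ p ++ e ∨ v ∈ p' ++ e'} a μ b) :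
    ∃ q : List V, IsP G q ∧ (∀ v ∈ q, v ∈ p ++ e ∨ v ∈ p' ++ e' ∨ v ∈ C) ∧
      miss (p ++ e ++ (p' ++ e')) q ≤ e.length + e'.length := by
  obtain ⟨u, w, rfl⟩ := List.append_of_mem ha
  obtain ⟨u', w', rfl⟩ := List.append_of_mem hb
  have e1 : p ++ (u ++ a :: w) = (p ++ u) ++ a :: w := by simp
  have e2 : p' ++ (u' ++ b :: w') = (p' ++ u') ++ b :: w' := by simp
  have h1 : IsP G ((p ++ u) ++ [a]) := by
    rw [e1] at hP
    exact (isP_split.mp hP).1
  have h2 : IsP G (b :: (p' ++ u').reverse) := by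
    rw [e2] at hP'
    have h3 := (isP_split.mp hP').1.reverse
    simpa using h3
  refine ⟨(p ++ u) ++ a :: (μ ++ b :: (p' ++ u').reverse), ?_, ?_, ?_⟩
  · refine isP_join h1 h2 ?_ hc ?_ ?_
    · intro v hv hv'
      refine @hd v ?_ ?_
      · simp only [List.mem_append, List.mem_cons, List.not_mem_nil, or_false] at hv ⊢
        tauto
      · simp only [List.mem_append, List.mem_cons, List.mem_reverse] at hv' ⊢
        tauto
    · intro v hv
      left
      simp only [List.mem_append, List.mem_cons] at hv ⊢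
      tauto
    · intro v hv
      right
      simp only [List.mem_append, List.mem_cons, List.mem_reverse] at hv ⊢
      tauto
  · intro v hv
    have h3 := hc.2 v
    simp only [List.mem_append, List.mem_cons, List.mem_reverse] at hv h3 ⊢
    tauto
  · have h4 : miss (p ++ (u ++ a :: w) ++ (p' ++ (u' ++ b :: w')))
        ((p ++ u) ++ a :: (μ ++ b :: (p' ++ u').reverse)) ≤ (w ++ w').length := by
      refine miss_le_of ?_
      intro v hv
      simp only [List.mem_append, List.mem_cons, List.mem_reverse] at hv ⊢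
      tauto
    refine h4.trans ?_
    simp only [List.length_append, List.length_cons]
    omega

theorem p_mrg : S_mrg := by
  intro h1 h2 h3 V _ _ G N s C hN hs j
  induction j with
  | zero =>
    intro p e p' e' I R hP hP' hd hL hI
    have hne : I.Nonempty := by
      rw [← Finset.card_pos]
      exact lt_of_lt_of_le (by positivity) hI
    have hAT : {v | v ∈ e} ⊆ {v | v ∈ p ++ e ∨ v ∈ p' ++ e'} :=
      fun v hv => Or.inl (List.mem_append_right _ hv)
    have hBT : {v | v ∈ e'} ⊆ {v | v ∈ p ++ e ∨ v ∈ p' ++ e'} :=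
      fun v hv => Or.inr (List.mem_append_right _ hv)
    have hAB : Disjoint {v | v ∈ e} {v | v ∈ e'} := by
      rw [Set.disjoint_left]
      intro v hv hv'
      exact hd (List.mem_append_right _ hv) (List.mem_append_right _ hv')
    obtain ⟨a, b, μ, ρ, h4, h5, h6⟩ := h1 V G C _ _ _ 0 I R hAT hBT hAB hne hL
    obtain ⟨k, hk⟩ := hne
    have := (h4 k hk).2.2.2.2.2.2
    simp at this
  | succ j ih =>
    intro p e p' e' I R hP hP' hd hL hI
    have hMpos : 0 < (2 * (N / s + 1) + 1) ^ j := by positivity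
    have hM : (2 * (N / s + 1) + 1) ^ j * (2 * (N / s + 1)) < I.card := by
      refine lt_of_lt_of_le ?_ hI
      rw [pow_succ]
      exact (Nat.mul_lt_mul_left hMpos).mpr (Nat.lt_succ_self _)
    have hne : I.Nonempty := by
      rw [← Finset.card_pos]
      exact lt_of_lt_of_le (by positivity) hI
    have hAT : {v | v ∈ e} ⊆ {v | v ∈ p ++ e ∨ v ∈ p' ++ e'} :=
      fun v hv => Or.inl (List.mem_append_right _ hv)
    have hBT : {v | v ∈ e'} ⊆ {v | v ∈ p ++ e ∨ v ∈ p' ++ e'} :=
      fun v hv => Or.inr (List.mem_append_right _ hv)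
    have hAB : Disjoint {v | v ∈ e} {v | v ∈ e'} := by
      rw [Set.disjoint_left]
      intro v hv hv'
      exact hd (List.mem_append_right _ hv) (List.mem_append_right _ hv')
    obtain ⟨a, b, μ, ρ, h4, h5, h6⟩ := h1 V G C _ _ _ (j + 1) I R hAT hBT hAB hne hL
    by_cases hcase : ∃ k ∈ I, b k ∈ e'
    · obtain ⟨k, hk, hbk⟩ := hcase
      obtain ⟨hak, -, -, -, -, hc, -⟩ := h4 k hk
      obtain ⟨q, hq1, hq2, hq3⟩ := mrg_case1 hP hP' hd hak hbk hc
      exact ⟨q, hq1, hq2, hq3.trans (Nat.le_add_right _ _)⟩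
    push Not at hcase
    have hbp : ∀ k ∈ I, b k ∈ p ∨ b k ∈ p' := by
      intro k hk
      obtain ⟨-, h7, h8, -⟩ := h4 k hk
      have h9 := hcase k hk
      have h8' : b k ∉ e := h8
      rcases h7 with h7 | h7
      · rcases List.mem_append.mp h7 with h7 | h7
        · exact Or.inl h7
        · exact absurd h7 h8'
      · rcases List.mem_append.mp h7 with h7 | h7
        · exact Or.inr h7
        · exact absurd h7 h9
    have hbinj : ∀ k ∈ I, ∀ k' ∈ I, k ≠ k' → b k ≠ b k' := by
      intro k hk k' hk' hkk hbb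
      have h7 := h5 k hk k' hk' hkk
      refine @h7 (b k) (by simp) ?_
      rw [hbb]
      simp
    obtain ⟨I', hI'I, hI'c, hz⟩ := h2 V N s ((2 * (N / s + 1) + 1) ^ j) I b p p'
      (List.nodup_append.mp hP.1).1 (List.nodup_append.mp hP'.1).1
      ((hP.left.length_le).trans hN) ((hP'.left.length_le).trans hN) hs hbp hM
    have hI'ne : I'.Nonempty := by
      rw [← Finset.card_pos]
      omega
    have hcard : ∀ k₁ ∈ I', (2 * (N / s + 1) + 1) ^ j ≤ (I'.erase k₁).card := by
      intro k₁ hk₁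
      rw [Finset.card_erase_of_mem hk₁]
      omega
    have hLnk : ∀ k₁ ∈ I', ∀ z' : List V, (∀ k ∈ I', k ≠ k₁ → b k ∈ z') →
        Lnk G C {v | v ∈ z'} {v | v ∈ e'} j (I'.erase k₁) (fun k => b k :: ρ k) := by
      intro k₁ hk₁ z' hz'
      refine (h6 j le_rfl (I'.erase k₁) ((Finset.erase_subset _ _).trans hI'I)).mono
        (Finset.Subset.refl _) ?_
      rintro v ⟨k, hk, rfl⟩
      exact hz' k (Finset.mem_of_mem_erase hk) (Finset.ne_of_mem_erase hk)
    rcases hz with ⟨x, z, y, hp, hzs, hbz⟩ | ⟨x, z, y, hp, hzs, hbz⟩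
    · obtain ⟨k₁, hk₁, z₁, z₂, hz12, hz2⟩ := (h3 V I' b z hI'ne hbz
        (fun k hk k' hk' => hbinj k (hI'I hk) k' (hI'I hk'))).1
      obtain ⟨hak, -, -, -, -, hc, -⟩ := h4 k₁ (hI'I hk₁)
      have hL' := hLnk k₁ hk₁ z₂.reverse (fun k hk hkk => List.mem_reverse.mpr (hz2 k hk hkk))
      have hcd := hcard k₁ hk₁
      generalize b k₁ = b₁ at *
      generalize a k₁ = a₁ at *
      generalize μ k₁ = μ₁ at *
      have hak' : a₁ ∈ e := hak
      obtain ⟨u, w, rfl⟩ := List.append_of_mem hak'
      subst hz12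
      subst hp
      have e1 : x ++ (z₁ ++ b₁ :: z₂ ++ y) ++ (u ++ a₁ :: w) =
          (x ++ z₁) ++ b₁ :: ((z₂ ++ y ++ u) ++ a₁ :: w) := by simp
      have hrot : IsP G ((x ++ z₁) ++ b₁ :: (μ₁.reverse ++ a₁ :: (z₂ ++ y ++ u).reverse)) := by
        refine isP_rotate (w := w) (by rw [← e1]; exact hP) hc ?_
        intro v hv
        rw [← e1] at hv
        exact Or.inl hv
      have e2 : (x ++ z₁) ++ b₁ :: (μ₁.reverse ++ a₁ :: (z₂ ++ y ++ u).reverse) =
          ((x ++ z₁) ++ b₁ :: (μ₁.reverse ++ a₁ :: (y ++ u).reverse)) ++ z₂.reverse := by simp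
      rw [e2] at hrot
      have hdis : List.Disjoint
          (((x ++ z₁) ++ b₁ :: (μ₁.reverse ++ a₁ :: (y ++ u).reverse)) ++ z₂.reverse)
          (p' ++ e') := by
        intro v hv hv'
        by_cases hvm : v ∈ μ₁
        · exact (hc.2 v hvm).2 (Or.inr hv')
        · refine @hd v ?_ hv'
          simp only [List.mem_append, List.mem_cons, List.mem_reverse] at hv ⊢
          tauto
      obtain ⟨q, hq1, hq2, hq3⟩ := ih _ _ p' e' (I'.erase k₁) (fun k => b k :: ρ k) hrot hP' hdis
        hL' hcd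
      refine ⟨q, hq1, ?_, ?_⟩
      · intro v hv
        have h7 := hq2 v hv
        have h8 := hc.2 v
        simp only [List.mem_append, List.mem_cons, List.mem_reverse] at h7 h8 ⊢
        tauto
      · have h7 : miss (x ++ (z₁ ++ b₁ :: z₂ ++ y) ++ (u ++ a₁ :: w) ++ (p' ++ e')) q ≤
            w.length + miss
            (((x ++ z₁) ++ b₁ :: (μ₁.reverse ++ a₁ :: (y ++ u).reverse)) ++ z₂.reverse ++
              (p' ++ e')) q := by
          refine miss_trans ?_
          intro v hv
          simp only [List.mem_append, List.mem_cons, List.mem_reverse] at hv ⊢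
          tauto
        refine h7.trans ((Nat.add_le_add_left hq3 _).trans ?_)
        simp only [List.length_append, List.length_cons, List.length_reverse] at hzs ⊢
        rw [Nat.add_mul, Nat.one_mul]
        omega
    · obtain ⟨k₁, hk₁, z₁, z₂, hz12, hz2⟩ := (h3 V I' b z hI'ne hbz
        (fun k hk k' hk' => hbinj k (hI'I hk) k' (hI'I hk'))).2
      obtain ⟨hak, -, -, -, -, hc, -⟩ := h4 k₁ (hI'I hk₁)
      have hL' := hLnk k₁ hk₁ z₁ hz2
      have hcd := hcard k₁ hk₁
      generalize b k₁ = b₁ at *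
      generalize a k₁ = a₁ at *
      generalize μ k₁ = μ₁ at *
      have hak' : a₁ ∈ e := hak
      obtain ⟨u, w, rfl⟩ := List.append_of_mem hak'
      subst hz12
      subst hp
      have e1 : x ++ (z₁ ++ b₁ :: z₂ ++ y) ++ e' =
          (x ++ z₁) ++ b₁ :: (z₂ ++ y ++ e') := by simp
      have e3 : p ++ (u ++ a₁ :: w) = (p ++ u) ++ a₁ :: w := by simp
      rw [e1] at hP'
      rw [e3] at hP
      obtain ⟨hs1, hs2, hs3⟩ := isP_split.mp hP'
      obtain ⟨ht1, ht2, ht3⟩ := isP_split.mp hP
      have hjoin : IsP G ((p ++ u) ++ a₁ :: (μ₁ ++ b₁ :: (z₂ ++ y ++ e'))) := by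
        refine isP_join ht1 hs2 ?_ hc ?_ ?_
        · intro v hv hv'
          refine @hd v ?_ ?_
          · simp only [List.mem_append, List.mem_cons, List.not_mem_nil, or_false] at hv ⊢
            tauto
          · simp only [List.mem_append, List.mem_cons] at hv' ⊢
            tauto
        · intro v hv
          left
          simp only [List.mem_append, List.mem_cons] at hv ⊢
          tauto
        · intro v hv
          right
          simp only [List.mem_append, List.mem_cons] at hv ⊢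
          tauto
      have e2 : (p ++ u) ++ a₁ :: (μ₁ ++ b₁ :: (z₂ ++ y ++ e')) =
          ((p ++ u) ++ a₁ :: (μ₁ ++ b₁ :: (z₂ ++ y))) ++ e' := by simp
      rw [e2] at hjoin
      have hxz : IsP G (x ++ z₁) := hs1.left
      have hnd := hs1.1
      rw [List.nodup_append] at hnd
      have hdis : List.Disjoint (x ++ z₁)
          (((p ++ u) ++ a₁ :: (μ₁ ++ b₁ :: (z₂ ++ y))) ++ e') := by
        intro v hv hv'
        have hvT : v ∈ x ++ (z₁ ++ b₁ :: z₂ ++ y) ++ e' := by
          simp only [List.mem_append, List.mem_cons] at hv ⊢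
          tauto
        have n1 : v ∉ μ₁ := fun hvm => (hc.2 v hvm).2 (Or.inr hvT)
        have n2 : v ∉ p ++ (u ++ a₁ :: w) := fun hvp => hd hvp hvT
        have n3 : v ∉ z₂ ++ y ++ e' := fun h => hs3 hv h
        have n4 : v ≠ b₁ := hnd.2.2 v hv b₁ (by simp)
        simp only [List.mem_append, List.mem_cons] at hv' n2 n3
        tauto
      obtain ⟨q, hq1, hq2, hq3⟩ := ih x z₁ _ e' (I'.erase k₁) (fun k => b k :: ρ k) hxz hjoin hdis
        hL' hcd
      refine ⟨q, hq1, ?_, ?_⟩
      · intro v hv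
        have h7 := hq2 v hv
        have h8 := hc.2 v
        simp only [List.mem_append, List.mem_cons] at h7 h8 ⊢
        tauto
      · have h7 : miss (p ++ (u ++ a₁ :: w) ++ (x ++ (z₁ ++ b₁ :: z₂ ++ y) ++ e')) q ≤
            w.length + miss (x ++ z₁ ++
            (((p ++ u) ++ a₁ :: (μ₁ ++ b₁ :: (z₂ ++ y))) ++ e')) q := by
          refine miss_trans ?_
          intro v hv
          simp only [List.mem_append, List.mem_cons] at hv ⊢
          tauto
        refine h7.trans ((Nat.add_le_add_left hq3 _).trans ?_)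
        simp only [List.length_append, List.length_cons] at hzs ⊢
        rw [Nat.add_mul, Nat.one_mul]
        omega

end Pool.Agent.Lib.MP_29e7a7_co.PP
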