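import Pool.Agent.Lib.MP_29e7a7_co.PP.Stm

/-!
# Piece [PP mul]: from two to `k` classes
-/

set_option autoImplicit false

namespace Pool.Agent.Lib.MP_29e7a7_co.PP

open Finset

private theorem mul_floor {η : ℝ} (hη : 0 < η) (N : ℕ) :
    ⌊η / 2 * N⌋₊ + ⌊η / 2 * N⌋₊ ≤ ⌊η * N⌋₊ := by
  apply Nat.le_floor
  have h0 : (0 : ℝ) ≤ η / 2 * N := by positivity
  have h1 := Nat.floor_le h0
  push_cast
  linarith

theorem p_mul : S_mul := by
  intro h2 k
  induction k with
  | zero =>
    intro η _
    refine ⟨0, ?_⟩
    intro N _ V _ _ G U a _ hU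
    refine ⟨fun i => i.elim0, ?_, fun i => i.elim0⟩
    intro v hv
    have h3 := hU [v] (isP_singleton v) (by
      intro w hw
      rw [List.mem_singleton] at hw
      rw [hw]
      exact hv)
    simp at h3
  | succ k ih =>
    cases k with
    | zero =>
      intro η _
      refine ⟨0, ?_⟩
      intro N _ V _ _ G U a _ hU
      refine ⟨fun _ => U, ?_, ?_⟩
      · intro v hv
        rw [mem_biUnion]
        exact ⟨0, mem_univ _, hv⟩
      · intro i
        have hi : i = 0 := Fin.ext (by omega)
        subst hi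
        refine hU.mono (Subset.refl _) ?_
        simp
    | succ k =>
      intro η hη
      obtain ⟨N1, h1⟩ := h2 (η / 2) (by positivity)
      obtain ⟨N2, h3⟩ := ih (η / 2) (by positivity)
      refine ⟨max N1 N2, ?_⟩
      intro N hN V _ _ G U a hV hU
      have hN1 : N1 ≤ N := le_trans (le_max_left _ _) hN
      have hN2 : N2 ≤ N := le_trans (le_max_right _ _) hN
      have hf := mul_floor hη N
      rw [Fin.sum_univ_succ] at hU
      obtain ⟨A, B, hAB, hA, hB⟩ := h1 N hN1 V G U (a 0) (∑ i : Fin (k + 1), a i.succ) hV hU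
      have hB' : Det G B (∑ i : Fin (k + 1), (a i.succ + if i = 0 then ⌊η / 2 * N⌋₊ else 0)) := by
        refine hB.mono (Subset.refl _) ?_
        rw [sum_add_distrib]
        simp
      obtain ⟨W, hW, hWd⟩ := h3 N hN2 V G B
        (fun i => a i.succ + if i = 0 then ⌊η / 2 * N⌋₊ else 0) hV hB'
      refine ⟨Fin.cons A W, ?_, ?_⟩
      · intro v hv
        rw [mem_biUnion]
        rcases mem_union.mp (hAB hv) with h | h
        · exact ⟨0, mem_univ _, h⟩
        · obtain ⟨i, _, hi⟩ := mem_biUnion.mp (hW h)
          exact ⟨i.succ, mem_univ _, by simpa using hi⟩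
      · intro i
        refine Fin.cases ?_ (fun i => ?_) i
        · rw [Fin.cons_zero]
          exact hA.mono (Subset.refl _) (by omega)
        · rw [Fin.cons_succ]
          refine (hWd i).mono (Subset.refl _) ?_
          split_ifs <;> omega

end Pool.Agent.Lib.MP_29e7a7_co.PP
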