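import Pool.Agent.Lib.MP_29e7a7_co.PP.Stm

/-!
# Asymptotic path partition theorem: choice of the parameters (piece num)
-/

set_option autoImplicit false

namespace Pool.Agent.Lib.MP_29e7a7_co.PP

/-- The natural number form: `N / m` instead of `⌊η * N⌋₊`. -/
private theorem num_nat (m r q L c K N t : ℕ) (hm : 1 ≤ m) (hr : r = 4 * m)
    (hq : q = 16 * m * (3 * r + r ^ 2)) (hL : L = 8 * m * (1 + 4 * q)) (hc : c = q * (L + 2))
    (hK : K = (2 * (2 * c + 1) + 1) ^ L) (ht : t = N / c) (htK : K * (L + 1) + 1 ≤ t)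
    (hN : 4 * m ≤ N) : ∃ s L K e e' h r : ℕ,
    1 ≤ s ∧ 1 ≤ L ∧ 1 ≤ e' ∧ e' + K * (L + 1) ≤ e ∧ (2 * (N / s + 1) + 1) ^ L ≤ K ∧
    (N / s + 1) ^ 2 < K ∧ N < (r + 1) * h ∧
    N * (K * (L + 1) + N / L) / e' + 2 * r * (3 * e + (L + 2) * s) +
      r * (e + r * (3 * e + (L + 2) * s)) ≤ N / m ∧
    h + (3 * e + (L + 2) * s) + 1 ≤ N / m := by
  have hr4 : 4 ≤ r := by omega
  have hrr : 4 ≤ 3 * r + r ^ 2 := by
    have := Nat.zero_le (r ^ 2)
    omega
  have hq16 : 16 * m * 4 ≤ q := by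
    rw [hq]
    exact Nat.mul_le_mul_left _ hrr
  have hq1 : 1 ≤ q := by omega
  have hL2 : 2 ≤ L := by
    rw [hL]
    have h1 : 1 * (1 + 4 * 1) ≤ 8 * m * (1 + 4 * q) := Nat.mul_le_mul (by omega) (by omega)
    omega
  have hc1 : 1 ≤ c := by
    rw [hc]
    exact Nat.mul_pos hq1 (by omega)
  have ht1 : 1 ≤ t := by omega
  have hct : c * t ≤ N := by
    rw [ht, mul_comm]
    exact Nat.div_mul_le_self N c
  have hNt : N ≤ 2 * c * t := by
    have h1 : N < c * (t + 1) := by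
      rw [ht]
      exact Nat.lt_mul_div_succ N hc1
    have h2 : c * (t + 1) ≤ 2 * c * t := by nlinarith
    omega
  have hNs : N / t ≤ 2 * c := Nat.div_le_of_le_mul (by rw [mul_comm]; exact hNt)
  have hNL : N / L ≤ 4 * q * t := by
    apply Nat.div_le_of_le_mul
    have h1 : 2 * c * t ≤ L * (4 * q * t) := by
      rw [hc]
      have h2 : L + 2 ≤ 2 * L := by omega
      calc 2 * (q * (L + 2)) * t = (L + 2) * (2 * q * t) := by ring
        _ ≤ (2 * L) * (2 * q * t) := Nat.mul_le_mul_right _ h2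
        _ = L * (4 * q * t) := by ring
    omega
  have hD : q * (4 * (L + 2) * t) ≤ 4 * N := by
    calc q * (4 * (L + 2) * t) = 4 * (q * (L + 2) * t) := by ring
      _ = 4 * (c * t) := by rw [hc]
      _ ≤ 4 * N := by omega
  refine ⟨t, L, K, (L + 2) * t, (L + 1) * t, N / (4 * m) + 1, r, ht1, by omega,
    Nat.mul_pos (by omega) ht1, ?_, ?_, ?_, ?_, ?_, ?_⟩
  · have h1 : (L + 2) * t = (L + 1) * t + t := by ring
    omega
  · rw [hK]
    exact Nat.pow_le_pow_left (by omega) L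
  · have h1 : (N / t + 1) ^ 2 ≤ (2 * c + 1) ^ 2 := Nat.pow_le_pow_left (by omega) 2
    have h2 : (2 * c + 1) ^ 2 < (2 * (2 * c + 1) + 1) ^ 2 := Nat.pow_lt_pow_left (by omega) two_ne_zero
    have h3 : (2 * (2 * c + 1) + 1) ^ 2 ≤ (2 * (2 * c + 1) + 1) ^ L :=
      Nat.pow_le_pow_right (by omega) hL2
    rw [hK]
    omega
  · have h1 : N < 4 * m * (N / (4 * m) + 1) := Nat.lt_mul_div_succ N (by omega)
    rw [hr]
    calc N < 4 * m * (N / (4 * m) + 1) := h1
      _ ≤ (4 * m + 1) * (N / (4 * m) + 1) := Nat.mul_le_mul_right _ (by omega)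
  · -- the main inequality
    have hD' : 3 * ((L + 2) * t) + (L + 2) * t = 4 * (L + 2) * t := by ring
    rw [hD']
    set D := 4 * (L + 2) * t with hDdef
    set Z := N * (K * (L + 1) + N / L) / ((L + 1) * t) with hZ
    have hZN : 8 * m * Z ≤ N := by
      have h1 : Z * ((L + 1) * t) ≤ N * (K * (L + 1) + N / L) := Nat.div_mul_le_self _ _
      have h2 : 8 * m * (K * (L + 1) + N / L) ≤ (L + 1) * t := by
        calc 8 * m * (K * (L + 1) + N / L) ≤ 8 * m * (t + 4 * q * t) :=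
              Nat.mul_le_mul_left _ (by omega)
          _ = L * t := by rw [hL]; ring
          _ ≤ (L + 1) * t := Nat.mul_le_mul_right _ (by omega)
      have h3 : 8 * m * Z * ((L + 1) * t) ≤ N * ((L + 1) * t) := by
        calc 8 * m * Z * ((L + 1) * t) = 8 * m * (Z * ((L + 1) * t)) := by ring
          _ ≤ 8 * m * (N * (K * (L + 1) + N / L)) := Nat.mul_le_mul_left _ h1
          _ = N * (8 * m * (K * (L + 1) + N / L)) := by ring
          _ ≤ N * ((L + 1) * t) := Nat.mul_le_mul_left _ h2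
      exact Nat.le_of_mul_le_mul_right h3 (Nat.mul_pos (by omega) ht1)
    have hY : 2 * r * D + r * ((L + 2) * t + r * D) ≤ (3 * r + r ^ 2) * D := by
      have h1 : (L + 2) * t ≤ D := by
        rw [hDdef]
        nlinarith
      nlinarith
    have hYN : 4 * m * ((3 * r + r ^ 2) * D) ≤ N := by
      have h1 : 4 * (4 * m * ((3 * r + r ^ 2) * D)) = q * D := by rw [hq]; ring
      omega
    rw [Nat.le_div_iff_mul_le (by omega)]
    have h5 : (Z + 2 * r * D + r * ((L + 2) * t + r * D)) ≤ Z + (3 * r + r ^ 2) * D := by omega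
    have h6 : (Z + (3 * r + r ^ 2) * D) * m ≤ N := by nlinarith
    exact (Nat.mul_le_mul_right m h5).trans h6
  · have hD' : 3 * ((L + 2) * t) + (L + 2) * t = 4 * (L + 2) * t := by ring
    rw [hD']
    set D := 4 * (L + 2) * t with hDdef
    have h1 : 4 * m * D ≤ N := by
      have h2 : 16 * m * 4 * D ≤ q * D := Nat.mul_le_mul_right _ hq16
      nlinarith
    have h2 : 4 * m * (N / (4 * m)) ≤ N := Nat.mul_div_le N (4 * m)
    rw [Nat.le_div_iff_mul_le (by omega)]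
    nlinarith

theorem p_num : S_num := by
  intro η hη
  obtain ⟨m, hm⟩ := exists_nat_gt (1 / η)
  have hm0 : (0 : ℝ) < m := lt_trans (by positivity) hm
  have hm1 : 1 ≤ m := by exact_mod_cast hm0
  have hmη : (1 : ℝ) / m ≤ η := by
    rw [div_le_iff₀ hm0]
    rw [div_lt_iff₀ hη] at hm
    linarith
  have key : ∀ N : ℕ, N / m ≤ ⌊η * N⌋₊ := by
    intro N
    apply Nat.le_floor
    calc ((N / m : ℕ) : ℝ) ≤ (N : ℝ) / m := Nat.cast_div_le
      _ = 1 / m * N := by ring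
      _ ≤ η * N := mul_le_mul_of_nonneg_right hmη (Nat.cast_nonneg N)
  obtain ⟨r, hr⟩ : ∃ r, r = 4 * m := ⟨_, rfl⟩
  obtain ⟨q, hq⟩ : ∃ q, q = 16 * m * (3 * r + r ^ 2) := ⟨_, rfl⟩
  obtain ⟨L, hL⟩ : ∃ L, L = 8 * m * (1 + 4 * q) := ⟨_, rfl⟩
  obtain ⟨c, hc⟩ : ∃ c, c = q * (L + 2) := ⟨_, rfl⟩
  obtain ⟨K, hK⟩ : ∃ K, K = (2 * (2 * c + 1) + 1) ^ L := ⟨_, rfl⟩
  refine ⟨(K * (L + 1) + 1) * c + 4 * m, fun N hN => ?_⟩
  have hc0 : 0 < c := by
    rw [hc, hq, hr]
    positivity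
  obtain ⟨s, L', K', e, e', h, r', h1, h2, h3, h4, h5, h6, h7, h8, h9⟩ :=
    num_nat m r q L c K N (N / c) hm1 hr hq hL hc hK rfl
      ((Nat.le_div_iff_mul_le hc0).2 (by omega)) (by omega)
  exact ⟨s, L', K', e, e', h, r', h1, h2, h3, h4, h5, h6, h7, h8.trans (key N), h9.trans (key N)⟩

end Pool.Agent.Lib.MP_29e7a7_co.PP
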