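import Pool.Agent.Lib.MP_29e7a7_co.PP.Stm

/-! Piece PP prt: the partition, with explicit parameters. -/

set_option autoImplicit false

namespace Pool.Agent.Lib.MP_29e7a7_co.PP

open Finset

private theorem prt_empty {V : Type} (G : SimpleGraph V) (t : ℕ) : Det G (∅ : Finset V) t := by
  intro l _ hl
  cases l with
  | nil => exact Nat.zero_le _
  | cons v l => exact absurd (hl v List.mem_cons_self) (Finset.notMem_empty v)

private theorem prt_longest {V : Type} [Fintype V] (G : SimpleGraph V) (C : Finset V) :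
    ∃ Q : List V, IsP G Q ∧ (∀ v ∈ Q, v ∈ C) ∧ Det G C Q.length := by
  classical
  let P : ℕ → Prop := fun t => ∃ l : List V, IsP G l ∧ (∀ v ∈ l, v ∈ C) ∧ l.length = t
  have h0 : P 0 := ⟨[], isP_nil, by simp, rfl⟩
  have h1 : P (Nat.findGreatest P (Fintype.card V)) :=
    Nat.findGreatest_spec (m := 0) (Nat.zero_le _) h0
  obtain ⟨Q, hQ, hQC, hlen⟩ := h1
  refine ⟨Q, hQ, hQC, ?_⟩
  intro l hl hlC
  rw [hlen]
  exact Nat.le_findGreatest hl.length_le ⟨l, hl, hlC, rfl⟩

private theorem prt_chain {V : Type} (G : SimpleGraph V) (F : Finset (Finset V)) (C : Finset V)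
    (_hC : C ∈ F) (hadj : ∀ C' ∈ F, C ≠ C' → ∀ x ∈ C, ∀ y ∈ C', ¬ G.Adj x y) :
    ∀ (l : List V) (v : V), (v :: l).IsChain G.Adj → v ∈ C →
      (∀ x ∈ v :: l, ∃ C' ∈ F, x ∈ C') → ∀ x ∈ v :: l, x ∈ C := by
  intro l
  induction l with
  | nil =>
    intro v _ hv _ x hx
    rw [List.mem_singleton] at hx
    subst hx
    exact hv
  | cons w l ih =>
    intro v hch hv hF x hx
    rw [List.isChain_cons_cons] at hch
    obtain ⟨hvw, hch⟩ := hch
    have hw : w ∈ C := by
      obtain ⟨C', hC', hwC'⟩ := hF w (List.mem_cons_of_mem _ List.mem_cons_self)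
      by_cases hne : C = C'
      · rw [hne]
        exact hwC'
      · exact absurd hvw (hadj C' hC' hne v hv w hwC')
    rcases List.mem_cons.mp hx with rfl | hx
    · exact hv
    · exact ih w hch hw (fun y hy => hF y (List.mem_cons_of_mem _ hy)) x hx

private theorem prt_div {a b n : ℕ} (hab : 1 ≤ a + b) (hn : n ≤ a + b) :
    n ≤ a * n / (a + b) + b := by
  have h1 : a * n < (a + b) * (a * n / (a + b) + 1) := Nat.lt_mul_div_succ _ hab
  have h2 : b * n ≤ (a + b) * b := by
    rw [mul_comm (a + b) b]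
    exact Nat.mul_le_mul_left b hn
  have h3 : (a + b) * n < (a + b) * (a * n / (a + b) + 1 + b) := by
    calc (a + b) * n = a * n + b * n := by ring
      _ < (a + b) * (a * n / (a + b) + 1) + (a + b) * b := by omega
      _ = (a + b) * (a * n / (a + b) + 1 + b) := by ring
  have h4 := Nat.lt_of_mul_lt_mul_left h3
  omega

theorem p_prt : S_prt := by
  intro hdec hbbd habd V _ _ G N s L K e e' h r a b U hN hs hL he' hee hK1 hK2 hr hU
  by_cases hab : a + b = 0
  · refine ⟨∅, ∅, ?_, prt_empty G _, prt_empty G _⟩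
    intro v hv
    exfalso
    have h1 := hU [v] (isP_singleton v) (by
      intro w hw
      rw [List.mem_singleton] at hw
      rw [hw]
      exact hv)
    rw [hab] at h1
    simp at h1
  have hab1 : 1 ≤ a + b := Nat.one_le_iff_ne_zero.mpr hab
  obtain ⟨F₀, hF1, hF2, hF3⟩ := hdec V G N L K e e' U hN hL he' hee
  choose Q hQ1 hQ2 hQ3 using fun C : Finset V => prt_longest G C
  set X : Finset V := U \ F₀.biUnion id with hX
  set F : Finset (Finset V) := F₀.filter (fun C => h ≤ C.card) with hF
  have hFsub : ∀ C ∈ F, C ∈ F₀ ∧ h ≤ C.card := by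
    intro C hC
    rw [hF, Finset.mem_filter] at hC
    exact hC
  have hdis : ∀ C ∈ F, ∀ C' ∈ F, C ≠ C' → Disjoint C C' := by
    intro C hC C' hC' hne
    exact (hF2 C (hFsub C hC).1 C' (hFsub C' hC').1 hne).1
  have hcard : F.card * h ≤ N := by
    calc F.card * h = ∑ _C ∈ F, h := by rw [Finset.sum_const, smul_eq_mul]
      _ ≤ ∑ C ∈ F, C.card := Finset.sum_le_sum fun C hC => (hFsub C hC).2
      _ = (F.biUnion id).card := by
          rw [Finset.card_biUnion]
          · rfl
          · intro C hC C' hC' hne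
            exact hdis C hC C' hC' hne
      _ ≤ Fintype.card V := Finset.card_le_univ _
      _ ≤ N := hN
  have hFr : F.card ≤ r := by
    by_contra hlt
    have h1 : (r + 1) * h ≤ F.card * h := Nat.mul_le_mul_right h (by omega)
    omega
  have hXC : ∀ C ∈ F₀, Disjoint X C := by
    intro C hC
    rw [Finset.disjoint_left]
    intro v hv hvC
    rw [hX, Finset.mem_sdiff] at hv
    exact hv.2 (Finset.mem_biUnion.mpr ⟨C, hC, hvC⟩)
  set A : Finset V := X ∪ F.biUnion
    (fun C => ((Q C).take (a * (Q C).length / (a + b))).toFinset) with hA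
  refine ⟨A, U \ A, ?_, ?_, ?_⟩
  · intro v hv
    by_cases hvA : v ∈ A
    · exact Finset.mem_union_left _ hvA
    · exact Finset.mem_union_right _ (Finset.mem_sdiff.mpr ⟨hv, hvA⟩)
  · intro p hp hpA
    have h1 := habd V G N s L K e hN hs hK1 hK2 a b r F Q X U p hFr
      (fun C hC => ⟨(hF1 C (hFsub C hC).1).1, (hF1 C (hFsub C hC).1).2, hQ1 C, hQ2 C,
        hXC C (hFsub C hC).1⟩) hdis Finset.sdiff_subset hU hab1 hp (by
        intro v hv
        have h2 := hpA v hv
        rw [hA, Finset.mem_union, Finset.mem_biUnion] at h2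
        rcases h2 with h2 | ⟨C, hC, h2⟩
        · exact Or.inl h2
        · exact Or.inr ⟨C, hC, List.mem_toFinset.mp h2⟩)
    omega
  · intro p hp hpB
    have hpB1 : ∀ v ∈ p, v ∈ U ∧ v ∉ A := fun v hv => Finset.mem_sdiff.mp (hpB v hv)
    have hpF : ∀ v ∈ p, ∃ C ∈ F₀, v ∈ C := by
      intro v hv
      obtain ⟨h1, h2⟩ := hpB1 v hv
      by_contra hno
      apply h2
      rw [hA, Finset.mem_union]
      left
      rw [hX, Finset.mem_sdiff]
      refine ⟨h1, ?_⟩
      intro h3
      rw [Finset.mem_biUnion] at h3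
      exact hno h3
    rcases p with _ | ⟨v, p⟩
    · exact Nat.zero_le _
    obtain ⟨C, hC, hvC⟩ := hpF v List.mem_cons_self
    have hpC : ∀ x ∈ v :: p, x ∈ C :=
      prt_chain G F₀ C hC (fun C' hC' hne => (hF2 C hC C' hC' hne).2) p v hp.2 hvC hpF
    by_cases hh : h ≤ C.card
    · have hCF : C ∈ F := by
        rw [hF, Finset.mem_filter]
        exact ⟨hC, hh⟩
      have hlen : (Q C).length ≤ a + b :=
        hU (Q C) (hQ1 C) (fun x hx => (hF1 C hC).1 (hQ2 C x hx))
      have hα : a * (Q C).length / (a + b) ≤ (Q C).length := by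
        apply Nat.div_le_of_le_mul
        exact Nat.mul_le_mul_right _ (Nat.le_add_right a b)
      have h1 := hbbd V G N s L K e C hN hs hK1 hK2 (hF1 C hC).2 (Q C) (v :: p)
        (a * (Q C).length / (a + b)) (hQ1 C) (hQ2 C) (hQ3 C) hα hp (by
          intro x hx
          refine ⟨hpC x hx, ?_⟩
          intro hx2
          apply (hpB1 x hx).2
          rw [hA, Finset.mem_union, Finset.mem_biUnion]
          right
          exact ⟨C, hCF, List.mem_toFinset.mpr hx2⟩)
      have h2 := prt_div hab1 hlen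
      omega
    · have h1 : (v :: p).length ≤ C.card := by
        rw [← List.toFinset_card_of_nodup hp.1]
        apply Finset.card_le_card
        intro x hx
        exact hpC x (List.mem_toFinset.mp hx)
      omega

end Pool.Agent.Lib.MP_29e7a7_co.PP
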