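import Pool.Agent.Lib.MP_29e7a7_co.PP.Stm

/-!
# Piece sep: a small set meeting all short paths
-/

set_option autoImplicit false

namespace Pool.Agent.Lib.MP_29e7a7_co.PP

open Finset

private theorem sep_step (H : ℕ → Prop) (h0 : H 0) (K : ℕ) (hK : ¬ H K) :
    ∃ n, n < K ∧ H n ∧ ¬ H (n + 1) := by
  by_contra hcon
  push Not at hcon
  apply hK
  have : ∀ n, n ≤ K → H n := by
    intro n
    induction n with
    | zero => exact fun _ => h0
    | succ n ih =>
      intro hn
      exact hcon n (by omega) (ih (by omega))
  exact this K le_rfl

theorem p_sep : S_sep := by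
  intro V _ _ G K L C S S' hK
  obtain ⟨n, hn, ⟨R, hR⟩, hn1⟩ := sep_step
    (fun n => ∃ R : ℕ → List V, Lnk G C (S : Set V) (S' : Set V) L (Finset.range n) R)
    ⟨fun _ => [], ⟨by simp, by simp, by simp, by simp, by simp, by simp⟩⟩ K hK
  refine ⟨(range n).biUnion (fun k => (R k).toFinset), ?_, ?_, ?_⟩
  · intro v hv
    rw [mem_biUnion] at hv
    obtain ⟨k, hk, hv⟩ := hv
    exact hR.sub k hk v (List.mem_toFinset.1 hv)
  · have h1 : ((range n).biUnion (fun k => (R k).toFinset)).card ≤ (range n).card * (L + 1) :=
      card_biUnion_le_card_mul _ _ _ (fun k hk => (List.toFinset_card_le _).trans (hR.len k hk))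
    rw [card_range] at h1
    exact h1.trans (Nat.mul_le_mul_right _ hn.le)
  · intro l hl hlC hhd hlst
    by_contra hlen
    push Not at hlen
    apply hn1
    refine ⟨fun k => if k = n then l else R k, ?_, ?_, ?_, ?_, ?_, ?_⟩
    · intro k hk
      by_cases hkn : k = n
      · simp only [hkn, if_true]
        exact hl
      · simp only [hkn, if_false]
        exact hR.path k (by rw [mem_range] at hk ⊢; omega)
    · intro k hk
      by_cases hkn : k = n
      · simp only [hkn, if_true]
        exact fun v hv => (mem_sdiff.1 (hlC v hv)).1
      · simp only [hkn, if_false]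
        exact hR.sub k (by rw [mem_range] at hk ⊢; omega)
    · intro k hk
      by_cases hkn : k = n
      · simp only [hkn, if_true]
        exact hlen
      · simp only [hkn, if_false]
        exact hR.len k (by rw [mem_range] at hk ⊢; omega)
    · intro k hk
      by_cases hkn : k = n
      · simp only [hkn, if_true]
        exact hhd
      · simp only [hkn, if_false]
        exact hR.hd k (by rw [mem_range] at hk ⊢; omega)
    · intro k hk
      by_cases hkn : k = n
      · simp only [hkn, if_true]
        exact hlst
      · simp only [hkn, if_false]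
        exact hR.lst k (by rw [mem_range] at hk ⊢; omega)
    · have key : ∀ k ∈ range n, ∀ v ∈ R k, v ∉ l := by
        intro k hk v hv hvl
        exact (mem_sdiff.1 (hlC v hvl)).2 (mem_biUnion.2 ⟨k, hk, List.mem_toFinset.2 hv⟩)
      intro k hk k' hk' hne
      rw [mem_range] at hk hk'
      by_cases hkn : k = n
      · have hkn' : k' ≠ n := fun h => hne (hkn.trans h.symm)
        simp only [hkn, hkn', if_true, if_false]
        intro v hv hv'
        exact key k' (mem_range.2 (by omega)) v hv' hv
      · by_cases hkn' : k' = n
        · simp only [hkn, hkn', if_true, if_false]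
          intro v hv hv'
          exact key k (mem_range.2 (by omega)) v hv hv'
        · simp only [hkn, hkn', if_false]
          exact hR.dis k (mem_range.2 (by omega)) k' (mem_range.2 (by omega)) hne

end Pool.Agent.Lib.MP_29e7a7_co.PP
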