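import Pool.Agent.Lib.MP_29e7a7_co.PP.Stm

/-!
# Asymptotic path partition theorem: piece seq
-/

set_option autoImplicit false

namespace Pool.Agent.Lib.MP_29e7a7_co.PP

open Finset

theorem p_seq : S_seq := by
  intro hins V _ _ G N s L K e hV hs hK1 hK2 J Q
  induction J using Finset.induction_on with
  | empty =>
    intro p hp _ _
    exact ⟨p, hp, fun v hv => Or.inl hv, by simp⟩
  | insert C₀ J' hC₀ ih =>
    intro p hp hJ hdis
    obtain ⟨hl, hQ, hQC, hQl, hcard⟩ := hJ C₀ (Finset.mem_insert_self _ _)
    have hcard' : (insert C₀ J').card = J'.card + 1 := Finset.card_insert_of_notMem hC₀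
    rw [hcard'] at hJ hcard
    obtain ⟨p₁, hp₁, hsub, hmiss⟩ := hins V G N s L K e C₀ hV hs hK1 hK2 hl p (Q C₀) hp hQ hQC hQl
      (by
        have : (J'.card + 1) * (3 * e + (L + 2) * s) ≥ 0 := Nat.zero_le _
        omega)
    have hdisC : ∀ C ∈ J', Disjoint C₀ C := by
      intro C hC
      apply hdis C₀ (Finset.mem_insert_self _ _) C (Finset.mem_insert_of_mem hC)
      rintro rfl
      exact hC₀ hC
    have hnd : (p ++ Q C₀).Nodup := by
      rw [List.nodup_append]
      refine ⟨hp.1, hQ.1, ?_⟩
      rintro a ha b hb rfl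
      exact (hQC a hb).2 ha
    have hlen := length_le_of_miss (q := p₁) hnd
    rw [List.length_append] at hlen
    obtain ⟨q, hq, hqs, hql⟩ := ih p₁ hp₁ (by
      intro C hC
      obtain ⟨h1, h2, h3, h4, h5⟩ := hJ C (Finset.mem_insert_of_mem hC)
      refine ⟨h1, h2, ?_, h4, ?_⟩
      · intro v hv
        refine ⟨(h3 v hv).1, fun hv1 => ?_⟩
        rcases hsub v hv1 with h | h
        · exact (h3 v hv).2 h
        · exact (Finset.disjoint_left.mp (hdisC C hC)) h (h3 v hv).1
      · have hle : (p.toFinset ∩ C).card ≤ (p₁.toFinset ∩ C).card + miss (p ++ Q C₀) p₁ := by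
          refine (Finset.card_le_card ?_).trans (Finset.card_union_le _ _)
          intro v hv
          rw [Finset.mem_inter, List.mem_toFinset] at hv
          rw [Finset.mem_union, Finset.mem_inter, Finset.mem_sdiff, List.mem_toFinset,
            List.mem_toFinset, List.mem_append]
          by_cases h : v ∈ p₁
          · exact Or.inl ⟨h, hv.2⟩
          · exact Or.inr ⟨Or.inl hv.1, h⟩
        have : (J'.card + 1) * (3 * e + (L + 2) * s)
            = J'.card * (3 * e + (L + 2) * s) + (3 * e + (L + 2) * s) := by ring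
        omega) (by
      intro C hC C' hC' hne
      exact hdis C (Finset.mem_insert_of_mem hC) C' (Finset.mem_insert_of_mem hC') hne)
    refine ⟨q, hq, ?_, ?_⟩
    · intro v hv
      rcases hqs v hv with h | ⟨C, hC, h⟩
      · rcases hsub v h with h | h
        · exact Or.inl h
        · exact Or.inr ⟨C₀, Finset.mem_insert_self _ _, h⟩
      · exact Or.inr ⟨C, Finset.mem_insert_of_mem hC, h⟩
    · rw [Finset.sum_insert hC₀, hcard']
      have : (J'.card + 1) * (3 * e + (L + 2) * s)
          = J'.card * (3 * e + (L + 2) * s) + (3 * e + (L + 2) * s) := by ring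
      omega

end Pool.Agent.Lib.MP_29e7a7_co.PP
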