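import Pool.Agent.Lib.MP_29e7a7_co.PP.Stm

/-!
# Piece thA: Theorem A in terms of walks and colourings
-/

set_option autoImplicit false

namespace Pool.Agent.Lib.MP_29e7a7_co.PP

open Finset

theorem p_thA : S_thA := by
  intro h1 h2 k η hη
  obtain ⟨N₀, hN₀⟩ := h1 k η hη
  refine ⟨N₀, ?_⟩
  intro V _ G t a hN ht hta
  classical
  have hdet : Det G Finset.univ (∑ i, a i) := by
    rw [← h2]
    intro u v p hp _
    exact (ht.2 ⟨u, v, p, hp, rfl⟩).trans hta
  obtain ⟨W, hW, hdetW⟩ := hN₀ (Fintype.card V) hN V G Finset.univ a le_rfl hdet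
  have hex : ∀ x : V, ∃ i : Fin k, x ∈ W i := by
    intro x
    have := hW (Finset.mem_univ x)
    rw [Finset.mem_biUnion] at this
    obtain ⟨i, _, hi⟩ := this
    exact ⟨i, hi⟩
  choose c hc using hex
  refine ⟨c, ?_⟩
  intro i u v p hp hpc
  have h3 := (h2 V G (W i) (a i + ⌊η * (Fintype.card V : ℝ)⌋₊)).mpr (hdetW i) u v p hp
    (fun x hx => by rw [← hpc x hx]; exact hc x)
  have h4 : (⌊η * (Fintype.card V : ℝ)⌋₊ : ℝ) ≤ η * Fintype.card V :=
    Nat.floor_le (by positivity)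
  have h5 : (p.support.length : ℝ) ≤ ((a i + ⌊η * (Fintype.card V : ℝ)⌋₊ : ℕ) : ℝ) := by
    exact_mod_cast h3
  rw [Nat.cast_add] at h5
  linarith

end Pool.Agent.Lib.MP_29e7a7_co.PP
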