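import Pool.Agent.Lib.MP_29e7a7_co.PP.Stm

/-!
# Asymptotic path partition theorem: piece thB (Corollary B)
-/

set_option autoImplicit false

namespace Pool.Agent.Lib.MP_29e7a7_co.PP

open Finset

private theorem thB_detour {V : Type} [Fintype V] {G : SimpleGraph V} {t : ℕ} (h : IsDetour G t) :
    1 ≤ t ∧ t ≤ Fintype.card V := by
  obtain ⟨⟨u, v, p, hp, hl⟩, -⟩ := h
  constructor
  · rw [← hl, SimpleGraph.Walk.length_support]
    omega
  · rw [← hl]
    exact hp.support_nodup.length_le_card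

theorem p_thB : S_thB := by
  intro h1 c δ hc hδ
  obtain ⟨k₀, hk₀⟩ : ∃ k₀ : ℕ, k₀ = ⌈(1 + δ) / c⌉₊ := ⟨_, rfl⟩
  obtain ⟨η, hη⟩ : ∃ η : ℝ, η = c * δ / (2 * (1 + δ)) := ⟨_, rfl⟩
  have hη0 : 0 < η := by rw [hη]; positivity
  choose f hf using fun k => h1 k η hη0
  refine ⟨(Finset.range (k₀ + 1)).sup f + (⌈1 / η⌉₊ + 1), ?_⟩
  intro V _ G t n hN ht hn
  obtain ⟨ht1, htN⟩ := thB_detour ht
  have hNpos : (0 : ℝ) < Fintype.card V := by
    have : 0 < Fintype.card V := by omega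
    exact_mod_cast this
  have hnpos : (0 : ℝ) < n := lt_of_lt_of_le (by positivity) hn
  have htpos : (0 : ℝ) < t := by exact_mod_cast ht1
  have htN' : (t : ℝ) ≤ Fintype.card V := by exact_mod_cast htN
  have h1δ : 0 < 1 + δ := by linarith
  have hηN : 1 ≤ η * Fintype.card V := by
    have h2 : (⌈1 / η⌉₊ : ℝ) ≤ Fintype.card V := by
      have : ⌈1 / η⌉₊ ≤ Fintype.card V := by omega
      exact_mod_cast this
    have h3 : 1 / η ≤ Fintype.card V := (Nat.le_ceil _).trans h2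
    rw [div_le_iff₀ hη0] at h3
    linarith
  obtain ⟨k, hk⟩ : ∃ k : ℕ, k = ⌈(1 + δ) * t / n⌉₊ := ⟨_, rfl⟩
  rw [← hk]
  have hkk₀ : k ≤ k₀ := by
    rw [hk, hk₀]
    apply Nat.ceil_le_ceil
    rw [div_le_div_iff₀ hnpos hc]
    have : t * c ≤ n := by nlinarith
    nlinarith
  have hkpos : 0 < k := by
    rw [hk]
    exact Nat.ceil_pos.2 (by positivity)
  have hkpos' : (0 : ℝ) < k := by exact_mod_cast hkpos
  have hkge : (1 + δ) * t / n ≤ k := by rw [hk]; exact Nat.le_ceil _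
  have htk : (t : ℝ) / k ≤ n / (1 + δ) := by
    rw [div_le_div_iff₀ hkpos' h1δ]
    rw [div_le_iff₀ hnpos] at hkge
    linarith
  have hsum : t ≤ ∑ _i : Fin k, ⌈(t : ℝ) / k⌉₊ := by
    rw [Finset.sum_const, Finset.card_univ, Fintype.card_fin, smul_eq_mul]
    have h2 : (t : ℝ) ≤ k * ⌈(t : ℝ) / k⌉₊ := by
      have h3 := Nat.le_ceil ((t : ℝ) / k)
      rw [div_le_iff₀ hkpos'] at h3
      linarith
    exact_mod_cast h2
  have hfN : f k ≤ Fintype.card V := by
    have : f k ≤ (Finset.range (k₀ + 1)).sup f :=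
      Finset.le_sup (f := f) (Finset.mem_range.2 (by omega))
    omega
  obtain ⟨col, hcol⟩ := hf k V G t (fun _ => ⌈(t : ℝ) / k⌉₊) hfN ht hsum
  refine ⟨col, fun u v p hp hx => ?_⟩
  have h2 := hcol (col u) u v p hp hx
  have h3 : (⌈(t : ℝ) / k⌉₊ : ℝ) < t / k + 1 := Nat.ceil_lt_add_one (by positivity)
  have h4 : (n : ℝ) / (1 + δ) + 2 * (η * Fintype.card V) ≤ n := by
    have e1 : (n : ℝ) - n / (1 + δ) = n * δ / (1 + δ) := by
      field_simp
      ring
    have e2 : 2 * (η * Fintype.card V) = (c * Fintype.card V) * δ / (1 + δ) := by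
      rw [hη]
      field_simp
    have e3 : (c * Fintype.card V) * δ / (1 + δ) ≤ n * δ / (1 + δ) := by
      apply div_le_div_of_nonneg_right _ h1δ.le
      exact mul_le_mul_of_nonneg_right hn hδ.le
    linarith
  have h5 : (p.support.length : ℝ) ≤ n := by linarith
  exact_mod_cast h5

end Pool.Agent.Lib.MP_29e7a7_co.PP
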