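import Pool.Agent.Lib.MP_29e7a7_co.PP.Stm

/-!
# Asymptotic path partition theorem: piece thC (Corollary C, counting the bad orders)
-/

set_option autoImplicit false

namespace Pool.Agent.Lib.MP_29e7a7_co.PP

open Finset

private theorem thC_detour {V : Type} [Fintype V] {G : SimpleGraph V} {t : ℕ} (h : IsDetour G t) :
    1 ≤ t ∧ t ≤ Fintype.card V := by
  obtain ⟨⟨u, v, p, hp, hl⟩, -⟩ := h
  constructor
  · rw [← hl, SimpleGraph.Walk.length_support]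
    omega
  · rw [← hl]
    exact hp.support_nodup.length_le_card

/-- a bad order `n` lies in a short interval above `t / k`, `k = ⌈t / n⌉₊` -/
private theorem thC_bad {V : Type} [Fintype V] {G : SimpleGraph V} {t n k : ℕ} {η : ℝ}
    (ht1 : 1 ≤ t) (hn1 : 1 ≤ n) (hk : k = ⌈(t : ℝ) / n⌉₊)
    (hf : ∀ a : Fin k → ℕ, t ≤ ∑ i, a i →
      ∃ c : V → Fin k, ∀ (i : Fin k) (u v : V) (p : G.Walk u v), p.IsPath →
      (∀ x ∈ p.support, c x = i) → (p.support.length : ℝ) ≤ a i + η * Fintype.card V)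
    (hbad : ¬ DetCol G n k) :
    1 ≤ k ∧ ⌈(t : ℝ) / k⌉₊ ≤ n ∧ n < ⌈(t : ℝ) / k⌉₊ + ⌊η * Fintype.card V⌋₊ + 1 := by
  have hnpos : (0 : ℝ) < n := by exact_mod_cast hn1
  have htpos : (0 : ℝ) < t := by exact_mod_cast ht1
  have hkpos : 0 < k := by
    rw [hk]
    exact Nat.ceil_pos.2 (by positivity)
  have hkpos' : (0 : ℝ) < k := by exact_mod_cast hkpos
  have hkge : (t : ℝ) / n ≤ k := by rw [hk]; exact Nat.le_ceil _
  refine ⟨hkpos, ?_, ?_⟩
  · apply Nat.ceil_le.2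
    rw [div_le_iff₀ hkpos']
    rw [div_le_iff₀ hnpos] at hkge
    linarith
  · by_contra hcon
    apply hbad
    have hsum : t ≤ ∑ _i : Fin k, ⌈(t : ℝ) / k⌉₊ := by
      rw [Finset.sum_const, Finset.card_univ, Fintype.card_fin, smul_eq_mul]
      have h2 : (t : ℝ) ≤ k * ⌈(t : ℝ) / k⌉₊ := by
        have h3 := Nat.le_ceil ((t : ℝ) / k)
        rw [div_le_iff₀ hkpos'] at h3
        linarith
      exact_mod_cast h2
    obtain ⟨col, hcol⟩ := hf (fun _ => ⌈(t : ℝ) / k⌉₊) hsum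
    refine ⟨col, fun u v p hp hx => ?_⟩
    have h2 := hcol (col u) u v p hp hx
    have h3 : η * Fintype.card V < (⌊η * Fintype.card V⌋₊ : ℝ) + 1 := Nat.lt_floor_add_one _
    have h4 : (⌈(t : ℝ) / k⌉₊ : ℝ) + ⌊η * Fintype.card V⌋₊ + 1 ≤ n := by
      have : ⌈(t : ℝ) / k⌉₊ + ⌊η * Fintype.card V⌋₊ + 1 ≤ n := by omega
      exact_mod_cast this
    have h5 : (p.support.length : ℝ) ≤ n := by linarith
    exact_mod_cast h5

theorem p_thC : S_thC := by
  intro h1 ε hε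
  obtain ⟨k₀, hk₀⟩ : ∃ k₀ : ℕ, k₀ = ⌈2 / ε⌉₊ := ⟨_, rfl⟩
  obtain ⟨η, hη⟩ : ∃ η : ℝ, η = ε / (4 * (k₀ + 1)) := ⟨_, rfl⟩
  have hη0 : 0 < η := by rw [hη]; positivity
  choose f hf using fun k => h1 k η hη0
  refine ⟨(Finset.range (k₀ + 1)).sup f + (⌈1 / η⌉₊ + 1), ?_⟩
  intro V _ G t hN ht
  obtain ⟨ht1, htN⟩ := thC_detour ht
  have hNpos : (0 : ℝ) < Fintype.card V := by
    have : 0 < Fintype.card V := by omega
    exact_mod_cast this
  have htN' : (t : ℝ) ≤ Fintype.card V := by exact_mod_cast htN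
  have hηN : 1 ≤ η * Fintype.card V := by
    have h2 : (⌈1 / η⌉₊ : ℝ) ≤ Fintype.card V := by
      have : ⌈1 / η⌉₊ ≤ Fintype.card V := by omega
      exact_mod_cast this
    have h3 : 1 / η ≤ Fintype.card V := (Nat.le_ceil _).trans h2
    rw [div_le_iff₀ hη0] at h3
    linarith
  let F : Finset ℕ := Finset.Ioc 0 ⌊ε * Fintype.card V / 2⌋₊ ∪
    (Finset.Icc 1 k₀).biUnion (fun k => Finset.Ico ⌈(t : ℝ) / k⌉₊
      (⌈(t : ℝ) / k⌉₊ + ⌊η * Fintype.card V⌋₊ + 1))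
  have hsub : {n : ℕ | 1 ≤ n ∧ n ≤ Fintype.card V ∧ ¬ DetCol G n ⌈(t : ℝ) / n⌉₊} ⊆
      (F : Set ℕ) := by
    rintro n ⟨hn1, hnN, hbad⟩
    simp only [F, Finset.coe_union, Set.mem_union, Finset.mem_coe, Finset.mem_Ioc,
      Finset.mem_biUnion, Finset.mem_Icc, Finset.mem_Ico]
    by_cases hsmall : (n : ℝ) ≤ ε * Fintype.card V / 2
    · left
      exact ⟨hn1, Nat.le_floor hsmall⟩
    · right
      push Not at hsmall
      have hnpos : (0 : ℝ) < n := by exact_mod_cast hn1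
      obtain ⟨k, hk⟩ : ∃ k : ℕ, k = ⌈(t : ℝ) / n⌉₊ := ⟨_, rfl⟩
      have hkk₀ : k ≤ k₀ := by
        rw [hk, hk₀]
        apply Nat.ceil_le_ceil
        rw [div_le_div_iff₀ hnpos hε]
        nlinarith
      have hfN : f k ≤ Fintype.card V := by
        have : f k ≤ (Finset.range (k₀ + 1)).sup f :=
          Finset.le_sup (f := f) (Finset.mem_range.2 (by omega))
        omega
      rw [← hk] at hbad
      obtain ⟨h2, h3, h4⟩ := thC_bad ht1 hn1 hk (fun a ha => hf k V G t a hfN ht ha) hbad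
      exact ⟨k, ⟨h2, hkk₀⟩, h3, h4⟩
  have hcard : (Set.ncard {n : ℕ | 1 ≤ n ∧ n ≤ Fintype.card V ∧
      ¬ DetCol G n ⌈(t : ℝ) / n⌉₊}) ≤ F.card := by
    rw [← Set.ncard_coe_finset F]
    exact Set.ncard_le_ncard hsub (Finset.finite_toSet F)
  have hF : F.card ≤ ⌊ε * Fintype.card V / 2⌋₊ + k₀ * (⌊η * Fintype.card V⌋₊ + 1) := by
    refine (Finset.card_union_le _ _).trans (Nat.add_le_add ?_ ?_)
    · simp
    · refine (Finset.card_biUnion_le).trans ?_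
      have : ∀ k ∈ Finset.Icc 1 k₀, (Finset.Ico ⌈(t : ℝ) / k⌉₊
          (⌈(t : ℝ) / k⌉₊ + ⌊η * Fintype.card V⌋₊ + 1)).card = ⌊η * Fintype.card V⌋₊ + 1 := by
        intro k _
        rw [Nat.card_Ico]
        omega
      rw [Finset.sum_congr rfl this, Finset.sum_const, Nat.card_Icc, smul_eq_mul]
      simp
  have h2 : ((⌊ε * Fintype.card V / 2⌋₊ + k₀ * (⌊η * Fintype.card V⌋₊ + 1) : ℕ) : ℝ) ≤
      ε * Fintype.card V := by
    push_cast
    have h3 : (⌊ε * Fintype.card V / 2⌋₊ : ℝ) ≤ ε * Fintype.card V / 2 :=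
      Nat.floor_le (by positivity)
    have h4 : (⌊η * Fintype.card V⌋₊ : ℝ) ≤ η * Fintype.card V := Nat.floor_le (by positivity)
    have h5 : (k₀ : ℝ) * ((⌊η * Fintype.card V⌋₊ : ℝ) + 1) ≤ k₀ * (2 * (η * Fintype.card V)) :=
      mul_le_mul_of_nonneg_left (by linarith) (Nat.cast_nonneg _)
    have h6 : (k₀ : ℝ) * (2 * (η * Fintype.card V)) ≤ ε * Fintype.card V / 2 := by
      have e1 : (4 * ((k₀ : ℝ) + 1)) * η = ε := by
        rw [hη]
        field_simp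
      have e2 : ε * Fintype.card V / 2 = (k₀ : ℝ) * (2 * (η * Fintype.card V)) +
          2 * (η * Fintype.card V) := by
        rw [← e1]
        ring
      have e3 : 0 ≤ η * Fintype.card V := by positivity
      linarith
    linarith
  calc (Set.ncard {n : ℕ | 1 ≤ n ∧ n ≤ Fintype.card V ∧ ¬ DetCol G n ⌈(t : ℝ) / n⌉₊} : ℝ)
      ≤ (F.card : ℝ) := by exact_mod_cast hcard
    _ ≤ ((⌊ε * Fintype.card V / 2⌋₊ + k₀ * (⌊η * Fintype.card V⌋₊ + 1) : ℕ) : ℝ) := by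
        exact_mod_cast hF
    _ ≤ ε * Fintype.card V := h2

end Pool.Agent.Lib.MP_29e7a7_co.PP
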