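import Pool.Agent.Lib.MP_29e7a7_co.PP.Stm

/-!
# Asymptotic path partition theorem, piece wlk: walks and lists
-/

set_option autoImplicit false

namespace Pool.Agent.Lib.MP_29e7a7_co.PP

theorem p_wlk : S_wlk := by
  intro V G U t
  constructor
  · intro h l hl hU
    by_cases hne : l = []
    · subst hne
      exact Nat.zero_le _
    · have h1 := h _ _ (SimpleGraph.Walk.ofSupport l hne hl.2) (by
        rw [SimpleGraph.Walk.isPath_def, SimpleGraph.Walk.support_ofSupport]
        exact hl.1) (by
        rw [SimpleGraph.Walk.support_ofSupport]
        exact hU)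
      rw [SimpleGraph.Walk.support_ofSupport] at h1
      exact h1
  · intro h u v p hp hU
    exact h p.support ⟨hp.support_nodup, p.isChain_adj_support⟩ hU

end Pool.Agent.Lib.MP_29e7a7_co.PP
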