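import Pool.Agent.Lib.MP_29e7a7_co.PP.Stm

set_option autoImplicit false

namespace Pool.Agent.Lib.MP_29e7a7_co.PP

open Finset

private noncomputable def ball_B {V : Type} [Fintype V] [DecidableEq V] (G : SimpleGraph V) (W S : Finset V) :
    ℕ → Finset V
  | 0 => S ∩ W
  | i + 1 => by
      classical
      exact ball_B G W S i ∪ W.filter (fun v => ∃ u ∈ ball_B G W S i, G.Adj u v)

private theorem ball_mem_succ {V : Type} [Fintype V] [DecidableEq V] (G : SimpleGraph V)
    (W S : Finset V) (i : ℕ) (v : V) :
    v ∈ ball_B G W S (i + 1) ↔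
      v ∈ ball_B G W S i ∨ (v ∈ W ∧ ∃ u ∈ ball_B G W S i, G.Adj u v) := by
  rw [ball_B]
  simp only [Finset.mem_union, Finset.mem_filter]

private theorem ball_sub {V : Type} [Fintype V] [DecidableEq V] (G : SimpleGraph V)
    (W S : Finset V) (i : ℕ) : ball_B G W S i ⊆ W := by
  induction i with
  | zero =>
    rw [ball_B]
    exact Finset.inter_subset_right
  | succ i ih =>
    intro v hv
    rcases (ball_mem_succ G W S i v).mp hv with h | h
    · exact ih h
    · exact h.1

private theorem ball_succ_sub {V : Type} [Fintype V] [DecidableEq V] (G : SimpleGraph V)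
    (W S : Finset V) (i : ℕ) : ball_B G W S i ⊆ ball_B G W S (i + 1) := by
  intro v hv
  exact (ball_mem_succ G W S i v).mpr (Or.inl hv)

private theorem ball_mono {V : Type} [Fintype V] [DecidableEq V] (G : SimpleGraph V)
    (W S : Finset V) {i j : ℕ} (h : i ≤ j) : ball_B G W S i ⊆ ball_B G W S j := by
  induction j, h using Nat.le_induction with
  | base => exact Finset.Subset.refl _
  | succ j _ ih => exact ih.trans (ball_succ_sub G W S j)

private theorem ball_path {V : Type} [Fintype V] [DecidableEq V] (G : SimpleGraph V)
    (W S : Finset V) (i : ℕ) : ∀ v ∈ ball_B G W S i, ∃ l : List V, IsP G l ∧ (∀ w ∈ l, w ∈ W) ∧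
      (∃ a ∈ S, l.head? = some a) ∧ l.getLast? = some v ∧ l.length ≤ i + 1 := by
  induction i with
  | zero =>
    intro v hv
    rw [ball_B, Finset.mem_inter] at hv
    refine ⟨[v], isP_singleton v, ?_, ⟨v, hv.1, rfl⟩, rfl, le_refl _⟩
    intro w hw
    rw [List.mem_singleton] at hw
    rw [hw]
    exact hv.2
  | succ i ih =>
    intro v hv
    rcases (ball_mem_succ G W S i v).mp hv with h | ⟨hvW, u, hu, huv⟩
    · obtain ⟨l, h1, h2, h3, h4, h5⟩ := ih v h
      exact ⟨l, h1, h2, h3, h4, by omega⟩
    · obtain ⟨l, h1, h2, h3, h4, h5⟩ := ih u hu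
      by_cases hvl : v ∈ l
      · obtain ⟨s, t, rfl⟩ := List.append_of_mem hvl
        refine ⟨s ++ [v], ?_, ?_, ?_, ?_, ?_⟩
        · exact (isP_split.mp h1).1
        · intro w hw
          apply h2
          rcases List.mem_append.mp hw with hw | hw
          · exact List.mem_append_left _ hw
          · rw [List.mem_singleton] at hw
            rw [hw]
            simp
        · obtain ⟨a, ha, hl⟩ := h3
          refine ⟨a, ha, ?_⟩
          cases s with
          | nil => simpa using hl
          | cons b s => simpa using hl
        · simp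
        · simp only [List.length_append, List.length_cons, List.length_nil] at h5 ⊢
          omega
      · refine ⟨l ++ [v], ⟨?_, ?_⟩, ?_, ?_, ?_, ?_⟩
        · rw [List.nodup_append]
          refine ⟨h1.1, List.nodup_singleton v, ?_⟩
          intro a ha b hb hab
          rw [List.mem_singleton] at hb
          rw [hab, hb] at ha
          exact hvl ha
        · rw [List.isChain_append]
          refine ⟨h1.2, List.isChain_singleton v, ?_⟩
          intro x hx y hy
          rw [h4] at hx
          have hx2 : u = x := by simpa using hx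
          have hy2 : v = y := by simpa using hy
          rw [← hx2, ← hy2]
          exact huv
        · intro w hw
          rcases List.mem_append.mp hw with hw | hw
          · exact h2 w hw
          · rw [List.mem_singleton] at hw
            rw [hw]
            exact hvW
        · obtain ⟨a, ha, hl⟩ := h3
          refine ⟨a, ha, ?_⟩
          cases l with
          | nil => simp at hl
          | cons b s => simpa using hl
        · simp
        · simp only [List.length_append, List.length_cons, List.length_nil]
          omega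

theorem p_ball : S_ball := by
  intro V _ _ G N L W S S' hN hL hpath
  have hdis : ∀ i ≤ L, Disjoint (ball_B G W S i) S' := by
    intro i hi
    rw [Finset.disjoint_left]
    intro v hv hv'
    obtain ⟨l, h1, h2, h3, h4, h5⟩ := ball_path G W S i v hv
    have := hpath l h1 h2 h3 ⟨v, hv', h4⟩
    omega
  have hsum : ∑ i ∈ Finset.range L, (ball_B G W S (i + 1) \ ball_B G W S i).card =
      (ball_B G W S L).card - (ball_B G W S 0).card := by
    have : ∀ m : ℕ, ∑ i ∈ Finset.range m, (ball_B G W S (i + 1) \ ball_B G W S i).card +
        (ball_B G W S 0).card = (ball_B G W S m).card := by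
      intro m
      induction m with
      | zero => simp
      | succ m ih =>
        rw [Finset.sum_range_succ]
        have := Finset.card_sdiff_add_card_eq_card (ball_succ_sub G W S m)
        omega
    have := this L
    omega
  have hle : ∑ i ∈ Finset.range L, (ball_B G W S (i + 1) \ ball_B G W S i).card ≤ N := by
    rw [hsum]
    exact (Nat.sub_le _ _).trans ((Finset.card_le_univ _).trans hN)
  obtain ⟨i, hi, hiL⟩ : ∃ i ∈ Finset.range L,
      (ball_B G W S (i + 1) \ ball_B G W S i).card ≤ N / L := by
    by_contra hcon
    push Not at hcon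
    have h1 : ∑ i ∈ Finset.range L, (N / L + 1) ≤
        ∑ i ∈ Finset.range L, (ball_B G W S (i + 1) \ ball_B G W S i).card :=
      Finset.sum_le_sum (fun i hi => hcon i hi)
    rw [Finset.sum_const, Finset.card_range, smul_eq_mul] at h1
    have h2 : N < L * (N / L + 1) := by
      have := Nat.div_add_mod N L
      have h3 := Nat.mod_lt N (show 0 < L by omega)
      nlinarith
    omega
  rw [Finset.mem_range] at hi
  refine ⟨ball_B G W S i, W \ ball_B G W S (i + 1), ball_sub G W S i, Finset.sdiff_subset,
    ?_, ?_, ?_, ?_, ?_⟩
  · rw [Finset.disjoint_left]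
    intro v hv hv'
    exact (Finset.mem_sdiff.mp hv').2 (ball_succ_sub G W S i hv)
  · have h0 : ball_B G W S 0 = S ∩ W := by rw [ball_B]
    rw [← h0]
    exact ball_mono G W S (Nat.zero_le i)
  · intro v hv
    rw [Finset.mem_inter] at hv
    rw [Finset.mem_sdiff]
    refine ⟨hv.2, fun hv' => ?_⟩
    exact (Finset.disjoint_left.mp (hdis (i + 1) hi)) hv' hv.1
  · intro x hx y hy hxy
    rw [Finset.mem_sdiff] at hy
    exact hy.2 ((ball_mem_succ G W S i y).mpr (Or.inr ⟨hy.1, x, hx, hxy⟩))
  · refine (Finset.card_le_card ?_).trans hiL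
    intro v hv
    rw [Finset.mem_sdiff, Finset.mem_union, Finset.mem_sdiff] at hv
    rw [Finset.mem_sdiff]
    constructor
    · by_contra hv2
      exact hv.2 (Or.inr ⟨hv.1, hv2⟩)
    · intro hv2
      exact hv.2 (Or.inl hv2)

end Pool.Agent.Lib.MP_29e7a7_co.PP
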