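import Pool.Agent.Lib.MP_29e7a7_co.PP.Stm2

/-!
# Asymptotic path partition theorem: piece uni

For more than `K = ⌈4 / η⌉₊ + 1` classes only the first `K` classes are used, with `⌈t / K⌉₊` in place
of `a i`.
-/

set_option autoImplicit false

namespace Pool.Agent.Lib.MP_29e7a7_co.PP

open Finset

private theorem uni_detour {V : Type} [Fintype V] {G : SimpleGraph V} {t : ℕ}
    (h : IsDetour G t) : t ≤ Fintype.card V := by
  obtain ⟨⟨u, v, p, hp, hl⟩, -⟩ := h
  rw [← hl]
  exact hp.support_nodup.length_le_card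

theorem p_uni : S_uni := by
  intro h1 η hη
  obtain ⟨K, hK⟩ : ∃ K : ℕ, K = ⌈4 / η⌉₊ + 1 := ⟨_, rfl⟩
  have hη2 : 0 < η / 2 := by linarith
  choose f hf using fun k => h1 k (η / 2) hη2
  refine ⟨(Finset.range (K + 1)).sup f + K, ?_⟩
  intro V _ G t k a hN ht hsum
  have hle : ∀ j ≤ K, f j ≤ Fintype.card V := by
    intro j hj
    have : f j ≤ (Finset.range (K + 1)).sup f :=
      Finset.le_sup (f := f) (Finset.mem_range.2 (by omega))
    omega
  have hKR : 4 / η ≤ K := by
    rw [hK]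
    push_cast
    exact (Nat.le_ceil _).trans (by linarith)
  have hKpos : (0 : ℝ) < K := lt_of_lt_of_le (by positivity) hKR
  have hKN : (K : ℝ) ≤ Fintype.card V := by
    have : K ≤ Fintype.card V := by omega
    exact_mod_cast this
  have hNpos : (0 : ℝ) < Fintype.card V := lt_of_lt_of_le hKpos hKN
  have hηN : 0 ≤ η * Fintype.card V := by positivity
  rcases Nat.lt_or_ge K k with hk | hk
  · have hb : t ≤ ∑ _i : Fin K, ⌈(t : ℝ) / K⌉₊ := by
      rw [Finset.sum_const, Finset.card_univ, Fintype.card_fin, smul_eq_mul]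
      have h2 : (t : ℝ) ≤ K * ⌈(t : ℝ) / K⌉₊ := by
        have h3 := Nat.le_ceil ((t : ℝ) / K)
        rw [div_le_iff₀ hKpos] at h3
        linarith
      exact_mod_cast h2
    obtain ⟨c, hc⟩ := hf K V G t (fun _ => ⌈(t : ℝ) / K⌉₊) (hle K le_rfl) ht hb
    refine ⟨fun v => Fin.castLE hk.le (c v), fun i u v p hp hx => ?_⟩
    have hu := hx u p.start_mem_support
    have h2 := hc (c u) u v p hp (fun x hxs => Fin.castLE_injective hk.le ((hx x hxs).trans hu.symm))
    have htN : (t : ℝ) ≤ Fintype.card V := by exact_mod_cast uni_detour ht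
    have h3 : (⌈(t : ℝ) / K⌉₊ : ℝ) < t / K + 1 := Nat.ceil_lt_add_one (by positivity)
    have h4 : (t : ℝ) / K ≤ η * Fintype.card V / 4 := by
      rw [div_le_iff₀ hKpos]
      rw [div_le_iff₀ hη] at hKR
      nlinarith
    have h5 : 1 ≤ η * Fintype.card V / 4 := by
      rw [div_le_iff₀ hη] at hKR
      nlinarith
    have h6 : (0 : ℝ) ≤ a i := Nat.cast_nonneg _
    linarith
  · obtain ⟨c, hc⟩ := hf k V G t a (hle k hk) ht hsum
    refine ⟨c, fun i u v p hp hx => ?_⟩
    have h2 := hc i u v p hp hx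
    linarith

end Pool.Agent.Lib.MP_29e7a7_co.PP
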